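import Pool.Agent.Lib.HYP.Ifc
import Pool.Agent.Lib.HYP.L.Gram
import Pool.Agent.Lib.BSDP.A.Deg

/-!
Module B.Blk: zero blocks, the shape of the norms of a reduced basis, squares of constants, linear
independence.

PROOFS. `det_zero_block`: `Matrix.det_apply'`; for every permutation `σ` there is `j` with `j < b`
and `σ j < a` (otherwise `σ` maps the `b` elements `j < b` injectively into the `n - a < b` elements
`i ≥ a`), so every term has a factor `0`. `types`: the sum over `i` of `ν i + ν (rev i)` is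
`2 ∑ ν ≤ 0` and all terms are `≥ 0`, so `ν (rev i) = - ν i`; for the middle `ν g = 0`. Put
`r j = (ν (g + j)).toNat` for `1 ≤ j ≤ g`, `r 0 = 0`, `r j = 0` for `j > g`; for `i ≥ g` one has
`ν i ≥ ν g = 0`. `const_sq`: `x` is integral over `k[X]`, so `x = cc p` (`IsIntegrallyClosed`),
`p ^ 2 = C v`, so `p` is a constant. `linInd_of_gram`: if `∑ i, x i • b i = 0` then
`∑ i, x i * gram1 hf c b i j = τ (c (∑ x i b i) b j) = 0` for all `j`, that is
`Matrix.vecMul x G = 0`, so `x = 0` (`Matrix.eq_zero_of_vecMul_eq_zero`-like).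
-/

set_option autoImplicit false

open Polynomial

namespace Pool.Agent.HYP

open Pool.Agent.BSDP

theorem det_zero_block {R : Type} [CommRing R] {n : ℕ} (M : Matrix (Fin n) (Fin n) R) (a b : ℕ)
    (hab : n < a + b) (ha : a ≤ n) (hb : b ≤ n)
    (h : ∀ i j : Fin n, (i : ℕ) < a → (j : ℕ) < b → M i j = 0) : M.det = 0 := by
  classical
  rw [Matrix.det_apply']
  refine Finset.sum_eq_zero fun σ _ => ?_
  have hex : ∃ j : Fin n, (j : ℕ) < b ∧ ((σ j : Fin n) : ℕ) < a := by
    by_contra hcon
    push Not at hcon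
    have hmap : ∀ j ∈ (Finset.univ.filter fun j : Fin n => (j : ℕ) < b),
        σ j ∈ (Finset.univ.filter fun i : Fin n => a ≤ (i : ℕ)) := by
      intro j hj
      simp only [Finset.mem_filter, Finset.mem_univ, true_and] at hj ⊢
      exact hcon j hj
    have hcard := Finset.card_le_card_of_injOn σ hmap (fun x _ y _ hxy => σ.injective hxy)
    have h1 : (Finset.univ.filter fun j : Fin n => (j : ℕ) < b).card = b := by
      rw [Fin.card_filter_val_lt, min_eq_right hb]
    have h2 : (Finset.univ.filter fun i : Fin n => a ≤ (i : ℕ)).card = n - a := by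
      have h3 := Finset.card_filter_add_card_filter_not (s := (Finset.univ : Finset (Fin n)))
        (fun i : Fin n => (i : ℕ) < a)
      rw [Fin.card_filter_val_lt, min_eq_right ha, Finset.card_univ, Fintype.card_fin] at h3
      have h4 : (Finset.univ.filter fun i : Fin n => a ≤ (i : ℕ))
          = (Finset.univ.filter fun i : Fin n => ¬ ((i : ℕ) < a)) := by
        refine Finset.filter_congr fun i _ => ?_
        exact not_lt.symm
      rw [h4]
      omega
    rw [h1, h2] at hcard
    omega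
  obtain ⟨j, hj1, hj2⟩ := hex
  have hprod : ∏ i, M (σ i) i = 0 := Finset.prod_eq_zero (Finset.mem_univ j) (h _ _ hj2 hj1)
  rw [hprod, mul_zero]

theorem types (g : ℕ) (ν : Fin (2 * g + 1) → ℤ) (hmono : Monotone ν) (hsum : ∑ i, ν i ≤ 0)
    (hpair : ∀ i, 0 ≤ ν i + ν (Fin.rev i)) :
    ∃ r : ℕ → ℕ, r 0 = 0 ∧ (∀ j < g, r j ≤ r (j + 1)) ∧ (∀ j, g < j → r j = 0) ∧
      ∀ i, ν i = nn g r i := by
  have hrev : ∑ i, ν (Fin.rev i) = ∑ i, ν i :=
    Equiv.sum_comp (Fin.revPerm) ν
  have hz : ∑ i, (ν i + ν (Fin.rev i)) = 0 := by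
    refine le_antisymm ?_ (Finset.sum_nonneg fun i _ => hpair i)
    rw [Finset.sum_add_distrib, hrev]
    linarith
  have hz2 : ∀ i, ν i + ν (Fin.rev i) = 0 := fun i =>
    (Finset.sum_eq_zero_iff_of_nonneg (fun i _ => hpair i)).1 hz i (Finset.mem_univ i)
  have hmid : ν ⟨g, by omega⟩ = 0 := by
    have h1 := hz2 ⟨g, by omega⟩
    have h2 : Fin.rev (⟨g, by omega⟩ : Fin (2 * g + 1)) = ⟨g, by omega⟩ := by
      ext
      simp only [Fin.val_rev]
      omega
    rw [h2] at h1
    omega
  have hnn : ∀ i : Fin (2 * g + 1), g ≤ (i : ℕ) → 0 ≤ ν i := by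
    intro i hi
    rw [← hmid]
    exact hmono hi
  refine ⟨fun j => if h : j ≤ g then (ν ⟨g + j, by omega⟩).toNat else 0, ?_, ?_, ?_, ?_⟩
  · simp [hmid]
  · intro j hj
    have h1 : j ≤ g := hj.le
    have h2 : j + 1 ≤ g := hj
    simp only [h1, h2, dif_pos]
    exact Int.toNat_le_toNat (hmono (by show g + j ≤ g + (j + 1); omega))
  · intro j hj
    have h1 : ¬ j ≤ g := by omega
    simp only [h1, dif_neg, not_false_eq_true]
  · intro i
    unfold nn
    rcases le_total g (i : ℕ) with hi | hi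
    · have h1 : (i : ℕ) - g ≤ g := by have := i.2; omega
      have h2 : g - (i : ℕ) = 0 := by omega
      have h3 : (0 : ℕ) ≤ g := Nat.zero_le _
      have h4 : (⟨g + ((i : ℕ) - g), by omega⟩ : Fin (2 * g + 1)) = i := by
        ext; simp only; omega
      simp only [h1, dif_pos, h2, h3, h4]
      have h5 : (⟨g + 0, by omega⟩ : Fin (2 * g + 1)) = ⟨g, by omega⟩ := by ext; simp
      rw [h5, hmid, Int.toNat_of_nonneg (hnn i hi)]
      simp
    · have h1 : g - (i : ℕ) ≤ g := by omega
      have h2 : (i : ℕ) - g = 0 := by omega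
      have h3 : (0 : ℕ) ≤ g := Nat.zero_le _
      have h4 : (⟨g + (g - (i : ℕ)), by omega⟩ : Fin (2 * g + 1)) = Fin.rev i := by
        ext
        simp only [Fin.val_rev]
        omega
      simp only [h1, dif_pos, h2, h3, h4]
      have h5 : (⟨g + 0, by omega⟩ : Fin (2 * g + 1)) = ⟨g, by omega⟩ := by ext; simp
      have h6 : 0 ≤ ν (Fin.rev i) := hnn _ (by rw [Fin.val_rev]; omega)
      rw [h5, hmid, Int.toNat_of_nonneg h6]
      have h7 := hz2 i
      simp
      omega

theorem const_sq {k : Type} [Field k] {v : k} {x : RatFunc k} (h : x ^ 2 = cc (C v)) :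
    ∃ u : k, v = u ^ 2 := by
  have hint : IsIntegral k[X] x := by
    refine ⟨X ^ 2 - C (C v), monic_X_pow_sub_C _ (by norm_num), ?_⟩
    rw [eval₂_sub, eval₂_X_pow, eval₂_C]
    rw [h]
    exact sub_self _
  obtain ⟨p, hp⟩ := IsIntegrallyClosed.isIntegral_iff.1 hint
  have hp2 : p ^ 2 = C v := by
    apply IsFractionRing.injective k[X] (RatFunc k)
    rw [map_pow, hp, h]
  have hdeg : p.natDegree = 0 := by
    have h1 := congrArg natDegree hp2
    rw [natDegree_pow, natDegree_C] at h1
    omega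
  obtain ⟨u, hu⟩ : ∃ u, p = C u := ⟨p.coeff 0, eq_C_of_natDegree_eq_zero hdeg⟩
  refine ⟨u, ?_⟩
  rw [hu, ← C_pow] at hp2
  exact (C_injective hp2).symm

/-- A nonzero Gram determinant gives linear independence. -/
theorem linInd_of_gram {F : Type} [Field F] {f : F[X]} (hf : f.Monic) {n : ℕ} (c : AdjoinRoot f)
    (b : Fin n → AdjoinRoot f) (h : (gram1 hf c b).det ≠ 0) : LinearIndependent F b := by
  rw [Fintype.linearIndependent_iff]
  intro x hx
  have h1 : Matrix.vecMul x (gram1 hf c b) = 0 := by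
    funext j
    have h2 : tau hf (c * (∑ i, x i • b i) * b j) = 0 := by
      rw [hx, mul_zero, zero_mul, map_zero]
    rw [Finset.mul_sum, Finset.sum_mul, map_sum] at h2
    rw [Pi.zero_apply, ← h2]
    unfold Matrix.vecMul
    rw [dotProduct]
    refine Finset.sum_congr rfl fun i _ => ?_
    unfold gram1
    rw [Matrix.of_apply, mul_smul_comm, smul_mul_assoc, map_smul, smul_eq_mul]
  have h3 := Matrix.eq_zero_of_vecMul_eq_zero h h1
  intro i
  rw [h3]
  rfl

end Pool.Agent.HYP
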