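import Mathlib

/-!
Module B.Chain: a chain argument in linear algebra.

PROOF. Put `W_0 = W`, `W_{j+1} = {w ∈ W_j : T w ∈ W_j} = W_j ⊓ W_j.comap T`. Then
`finrank W_j + 1 ≥ finrank W_{j-1}` (with `W_{-1} = W ⊔ W.map T`) for all `j`: the map
`T : W_j → W_{j-1} / W_j` (for `j = 0`: `W → (W ⊔ T W) / W`) has kernel `W_{j+1}`, so
`finrank W_j - finrank W_{j+1} ≤ finrank W_{j-1} - finrank W_j ≤ 1`. Hence with
`d = finrank W ≥ 1` one has `finrank W_{d-1} ≥ 1`; take `w ≠ 0` in it: `T ^ j w ∈ W_{d-1-j} ≤ W` for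
all `j ≤ d - 1`. (It is enough to prove: for submodules `A ≤ B` with `A.map T ≤ B`
[`finrank B ≤ finrank A + 1`] and `A' = A ⊓ A.comap T`: `A' ≤ A`, `A'.map T ≤ A`,
`finrank A ≤ finrank A' + 1`: rank-nullity for `(mkQ A) ∘ T : A → V / A`, whose range is in
`B.map (mkQ A)`, of dimension `finrank B - finrank A`.)
-/

set_option autoImplicit false

namespace Pool.Agent.HYP

private theorem chain_step {F V : Type} [Field F] [AddCommGroup V] [Module F V]
    [FiniteDimensional F V] (T : V →ₗ[F] V) (A B : Submodule F V) (hAB : A ≤ B)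
    (hT : A.map T ≤ B) (h : Module.finrank F B ≤ Module.finrank F A + 1) :
    Module.finrank F A ≤ Module.finrank F (A ⊓ A.comap T : Submodule F V) + 1 := by
  set f : A →ₗ[F] (V ⧸ A) := A.mkQ ∘ₗ T ∘ₗ A.subtype with hf
  set g : B →ₗ[F] (V ⧸ A) := A.mkQ ∘ₗ B.subtype with hg
  have h1 := LinearMap.finrank_range_add_finrank_ker f
  have h2 := LinearMap.finrank_range_add_finrank_ker g
  have h3 : LinearMap.ker f = (A ⊓ A.comap T).comap A.subtype := by
    ext x
    simp [hf]
  have h4 : LinearMap.ker g = A.comap B.subtype := by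
    ext x
    simp [hg]
  have h5 : Module.finrank F (LinearMap.ker f)
      = Module.finrank F (A ⊓ A.comap T : Submodule F V) := by
    rw [h3]
    exact (Submodule.comapSubtypeEquivOfLe (p := A ⊓ A.comap T) (q := A) inf_le_left).finrank_eq
  have h6 : Module.finrank F (LinearMap.ker g) = Module.finrank F A := by
    rw [h4]
    exact (Submodule.comapSubtypeEquivOfLe (p := A) (q := B) hAB).finrank_eq
  have h7 : LinearMap.range f ≤ LinearMap.range g := by
    rintro _ ⟨x, rfl⟩
    exact ⟨⟨T x, hT ⟨x, x.2, rfl⟩⟩, rfl⟩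
  have h8 := Submodule.finrank_mono h7
  omega

theorem chain {F V : Type} [Field F] [AddCommGroup V] [Module F V] [FiniteDimensional F V]
    (T : V →ₗ[F] V) (W : Submodule F V) (hW : W ≠ ⊥)
    (h : Module.finrank F (W ⊔ W.map T : Submodule F V) ≤ Module.finrank F W + 1) :
    ∃ w : V, w ≠ 0 ∧ ∀ j < Module.finrank F W, (T ^ j) w ∈ W := by
  obtain ⟨Wj, h0, hs⟩ : ∃ Wj : ℕ → Submodule F V, Wj 0 = W ∧
      ∀ j, Wj (j + 1) = Wj j ⊓ (Wj j).comap T :=
    ⟨fun j => Nat.rec W (fun _ A => A ⊓ A.comap T) j, rfl, fun j => rfl⟩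
  have key : ∀ j, Module.finrank F W ≤ Module.finrank F (Wj j) + j ∧
      ∃ B : Submodule F V, Wj j ≤ B ∧ (Wj j).map T ≤ B ∧
        Module.finrank F B ≤ Module.finrank F (Wj j) + 1 := by
    intro j
    induction j with
    | zero =>
      rw [h0]
      exact ⟨le_rfl, W ⊔ W.map T, le_sup_left, le_sup_right, h⟩
    | succ j ih =>
      obtain ⟨h1, B, h2, h3, h4⟩ := ih
      have h5 := chain_step T (Wj j) B h2 h3 h4
      rw [← hs] at h5
      refine ⟨by omega, Wj j, ?_, ?_, h5⟩
      · rw [hs]; exact inf_le_left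
      · rw [hs, Submodule.map_le_iff_le_comap]
        exact inf_le_right
  have hanti : ∀ j, Wj j ≤ W := by
    intro j
    induction j with
    | zero => exact h0.le
    | succ j ih => rw [hs]; exact inf_le_left.trans ih
  have hpow : ∀ i j (w : V), w ∈ Wj (j + i) → (T ^ i) w ∈ Wj j := by
    intro i
    induction i with
    | zero => intro j w hw; simpa using hw
    | succ i ih =>
      intro j w hw
      have h6 : T w ∈ Wj (j + i) := by
        have h7 : w ∈ Wj (j + i + 1) := hw
        rw [hs] at h7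
        exact h7.2
      have h8 := ih j (T w) h6
      rw [pow_succ]
      exact h8
  have hd : 0 < Module.finrank F W := by
    rw [Nat.pos_iff_ne_zero]
    intro h9
    exact hW (Submodule.finrank_eq_zero.1 h9)
  obtain ⟨h10, -⟩ := key (Module.finrank F W - 1)
  have h11 : 0 < Module.finrank F (Wj (Module.finrank F W - 1)) := by omega
  have h12 : Wj (Module.finrank F W - 1) ≠ ⊥ := by
    intro h13
    rw [h13, finrank_bot] at h11
    exact lt_irrefl _ h11
  obtain ⟨w, hw, hw0⟩ := Submodule.exists_mem_ne_zero_of_ne_bot h12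
  refine ⟨w, hw0, fun j hj => ?_⟩
  have h14 : w ∈ Wj ((Module.finrank F W - 1 - j) + j) := by
    rw [Nat.sub_add_cancel (by omega)]
    exact hw
  exact hanti _ (hpow _ _ _ h14)

end Pool.Agent.HYP
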