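import Pool.Agent.Lib.HYP.L.Tau

/-!
Module B.Perp: orthogonal complements for `(l, l') ↦ τ (c l l')`; a subspace which is orthogonal to a
complement in dimension for both forms.

PROOFS. `perp`: the bilinear form `(l, l') ↦ τ (c l l')` is symmetric and nondegenerate
(`eq_zero_of_tau`, `c` a unit), so `finrank` of the orthogonal of `V` is `n - finrank V`
(`LinearMap.BilinForm.finrank_orthogonal`); `finrank L = n`
(`(AdjoinRoot.powerBasis' hf).finrank`).
`isoB`: the orthogonal `W'` of `V` for `τ (c l l')` has dimension `finrank W` and contains `W`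
(`h1`), so it is `W`; by `h2` `θ W` is in it. So `W` is stable under `θ`, hence under all of `L`
(every `l` is `mk P`, induction on `P`), and contains a unit: `W = ⊤`, `finrank V = 0`.
-/

set_option autoImplicit false

open Polynomial

namespace Pool.Agent.HYP

private noncomputable def pform {F : Type} [Field F] {f : F[X]} (hf : f.Monic) (c : AdjoinRoot f) :
    LinearMap.BilinForm F (AdjoinRoot f) :=
  LinearMap.mk₂ F (fun l l' => tau hf (c * l * l'))
    (fun a b d => by rw [mul_add, add_mul, map_add])
    (fun r a b => by rw [mul_smul_comm, smul_mul_assoc, map_smul])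
    (fun a b d => by rw [mul_add, map_add])
    (fun r a b => by rw [mul_smul_comm, map_smul])

theorem perp {F : Type} [Field F] {f : F[X]} (hf : f.Monic) (c : AdjoinRoot f) (hc : IsUnit c)
    (V : Submodule F (AdjoinRoot f)) :
    ∃ W : Submodule F (AdjoinRoot f), (∀ l, l ∈ W ↔ ∀ l' ∈ V, tau hf (c * l * l') = 0) ∧
      Module.finrank F W + Module.finrank F V = f.natDegree := by
  haveI : FiniteDimensional F (AdjoinRoot f) := (AdjoinRoot.powerBasis' hf).finite
  have hn : Module.finrank F (AdjoinRoot f) = f.natDegree := by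
    rw [(AdjoinRoot.powerBasis' hf).finrank, AdjoinRoot.powerBasis'_dim]
  have hker : LinearMap.ker (pform hf c) = ⊥ := by
    rw [LinearMap.ker_eq_bot']
    intro l hl
    have h1 : c * l = 0 := by
      refine eq_zero_of_tau hf (c * l) fun j _ => ?_
      have h2 : pform hf c l (AdjoinRoot.root f ^ j) = 0 := by rw [hl, LinearMap.zero_apply]
      exact h2
    exact (hc.mul_right_eq_zero).1 h1
  refine ⟨LinearMap.BilinForm.orthogonal (pform hf c) V, fun l => ?_, ?_⟩
  · rw [LinearMap.BilinForm.mem_orthogonal_iff]
    constructor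
    · intro h l' hl'
      have h1 : pform hf c l' l = 0 := h l' hl'
      have h2 : tau hf (c * l' * l) = 0 := h1
      rwa [mul_right_comm] at h2
    · intro h l' hl'
      change tau hf (c * l' * l) = 0
      rw [mul_right_comm]
      exact h l' hl'
  · have h1 := LinearMap.BilinForm.finrank_add_finrank_orthogonal' (B := pform hf c) V
    rw [hker, inf_bot_eq, finrank_bot, add_zero, hn] at h1
    rw [add_comm]
    exact h1

theorem isoB {F : Type} [Field F] {f : F[X]} (hf : f.Monic)
    (hu : ∀ l : AdjoinRoot f, l ≠ 0 → IsUnit l) (c : AdjoinRoot f) (hc : c ≠ 0)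
    (W V : Submodule F (AdjoinRoot f)) (hW : 1 ≤ Module.finrank F W)
    (hV : 1 ≤ Module.finrank F V) (hWV : Module.finrank F W + Module.finrank F V = f.natDegree)
    (h1 : ∀ l ∈ W, ∀ l' ∈ V, tau hf (c * l * l') = 0)
    (h2 : ∀ l ∈ W, ∀ l' ∈ V, tau hf (AdjoinRoot.root f * c * l * l') = 0) : False := by
  haveI : FiniteDimensional F (AdjoinRoot f) := (AdjoinRoot.powerBasis' hf).finite
  have hn : Module.finrank F (AdjoinRoot f) = f.natDegree := by
    rw [(AdjoinRoot.powerBasis' hf).finrank, AdjoinRoot.powerBasis'_dim]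
  obtain ⟨W', hW', hd⟩ := perp hf c (hu c hc) V
  have hle : W ≤ W' := fun l hl => (hW' l).2 fun l' hl' => h1 l hl l' hl'
  have heq : W = W' := Submodule.eq_of_le_of_finrank_eq hle (by omega)
  have hst : ∀ l ∈ W, AdjoinRoot.root f * l ∈ W := by
    intro l hl
    rw [heq]
    refine (hW' _).2 fun l' hl' => ?_
    have h3 := h2 l hl l' hl'
    rwa [show AdjoinRoot.root f * c * l * l' = c * (AdjoinRoot.root f * l) * l' by ring] at h3
  have hall : ∀ P : F[X], ∀ l ∈ W, AdjoinRoot.mk f P * l ∈ W := by
    intro P
    induction P using Polynomial.induction_on' with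
    | add p q hp hq =>
      intro l hl
      rw [map_add, add_mul]
      exact W.add_mem (hp l hl) (hq l hl)
    | monomial m a =>
      induction m with
      | zero =>
        intro l hl
        rw [monomial_zero_left, AdjoinRoot.mk_C, ← AdjoinRoot.algebraMap_eq, ← Algebra.smul_def]
        exact W.smul_mem a hl
      | succ m ih =>
        intro l hl
        have h3 : AdjoinRoot.mk f (monomial (m + 1) a) =
            AdjoinRoot.mk f (monomial m a) * AdjoinRoot.root f := by
          rw [← monomial_mul_X, map_mul, AdjoinRoot.mk_X]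
        rw [h3, mul_assoc]
        exact ih _ (hst l hl)
  have hex : ∃ l ∈ W, l ≠ 0 := by
    by_contra hcon
    push Not at hcon
    have h3 : W = ⊥ := (Submodule.eq_bot_iff W).2 hcon
    rw [h3, finrank_bot] at hW
    omega
  obtain ⟨l, hl, hl0⟩ := hex
  obtain ⟨u, hu'⟩ := (hu l hl0).exists_left_inv
  have hone : (1 : AdjoinRoot f) ∈ W := by
    obtain ⟨P, rfl⟩ := AdjoinRoot.mk_surjective u
    have h3 := hall P l hl
    rwa [hu'] at h3
  have htop : W = ⊤ := by
    rw [eq_top_iff]
    intro x _
    obtain ⟨P, rfl⟩ := AdjoinRoot.mk_surjective x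
    have h3 := hall P 1 hone
    rwa [mul_one] at h3
  rw [htop, finrank_top, hn] at hWV
  omega

end Pool.Agent.HYP
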