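import Pool.Agent.Lib.HYP.L.Norm
import Pool.Agent.Lib.HYP.B.Chain
import Pool.Agent.Lib.HYP.B.Perp

/-!
Module B.Iso: a `g`-dimensional subspace isotropic for `τ (c l l')` and `τ (θ c l l')` on `L = F[θ]`,
`n = 2 g + 1`, `L` a field (`hu`), makes `c` a square.

PROOF. `finrank F L = n` (`(AdjoinRoot.powerBasis' hf).finrank`), `AdjoinRoot f` is finite. Let `W'` be
the orthogonal of `W` for `τ (c l l')` (`perp`), of dimension `g + 1`. By `h1`, `h2` `W ⊔ θ W ≤ W'`
(`T = LinearMap.mulLeft F (root f)`), so `chain` gives `w ≠ 0` with `θ ^ j w ∈ W`, `j < g`. So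
`τ (c w² θ ^ s) = 0` for `s ≤ 2 g - 1` (`s = a + b`, `a, b ≤ g - 1` for `s ≤ 2 g - 2` from `h1`,
`s = 1 + (g - 1) + (g - 1)` from `h2`). Then `c w²` is in `F`: write `c w² = mk f P` with
`P.natDegree < n` (`exists_repr`); if `P` has degree `j ≥ 1` then
`τ (c w² θ ^ (n-1-j)) = τ (mk f (P * X ^ (n-1-j)))` is the leading coefficient of `P` (`tau_mk_lt`),
and `n - 1 - j ≤ 2 g - 1`. So `c w² = a` in `F`, `a ≠ 0` (`c`, `w` are units: `c ≠ 0` since its norm is
not `0`), `a ^ (2 g + 1) = norm c * (norm w) ^ 2` (`norm_const`, `map_mul`) is a square `s ^ 2`, hence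
`a = (s / a ^ g) ^ 2` and `c = ((s / a ^ g) w⁻¹) ^ 2`.
-/

set_option autoImplicit false

open Polynomial

namespace Pool.Agent.HYP

theorem isoA {F : Type} [Field F] {f : F[X]} (hf : f.Monic) {g : ℕ} (hg : 1 ≤ g)
    (hdeg : f.natDegree = 2 * g + 1) (hu : ∀ l : AdjoinRoot f, l ≠ 0 → IsUnit l)
    (c : AdjoinRoot f) (hc : SqNorm c) (W : Submodule F (AdjoinRoot f))
    (hW : Module.finrank F W = g) (h1 : ∀ l ∈ W, ∀ l' ∈ W, tau hf (c * l * l') = 0)
    (h2 : ∀ l ∈ W, ∀ l' ∈ W, tau hf (AdjoinRoot.root f * c * l * l') = 0) : IsSquare c := by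
  have hfin := hf.finite_adjoinRoot
  obtain ⟨b, hb0, hb⟩ := hc
  have hcu : IsUnit c := by
    rw [isUnit_iff_norm hf, hb]
    exact (IsUnit.mk0 b hb0).pow 2
  obtain ⟨W', hW', hfr⟩ := perp hf c hcu W
  have hfr' : Module.finrank F W' = g + 1 := by omega
  have hle : W ⊔ W.map (LinearMap.mulLeft F (AdjoinRoot.root f)) ≤ W' := by
    refine sup_le (fun l hl => (hW' l).2 (fun l' hl' => h1 l hl l' hl')) ?_
    rintro _ ⟨l, hl, rfl⟩
    refine (hW' _).2 (fun l' hl' => ?_)
    have h3 := h2 l hl l' hl'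
    rw [LinearMap.mulLeft_apply, ← h3]
    congr 1
    ring
  have hWne : W ≠ ⊥ := by
    rintro rfl
    rw [finrank_bot] at hW
    omega
  obtain ⟨w, hw0, hw⟩ := chain (LinearMap.mulLeft F (AdjoinRoot.root f)) W hWne
    ((Submodule.finrank_mono hle).trans (by rw [hfr', hW]))
  rw [hW] at hw
  have hw' : ∀ j < g, AdjoinRoot.root f ^ j * w ∈ W := by
    intro j hj
    have h3 := hw j hj
    rwa [LinearMap.pow_mulLeft, LinearMap.mulLeft_apply] at h3
  have hz : ∀ s ≤ 2 * g - 1, tau hf (c * w * w * AdjoinRoot.root f ^ s) = 0 := by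
    intro s hs
    rcases Nat.lt_or_ge s (2 * g - 1) with h3 | h3
    · have h4 := h1 _ (hw' (s / 2) (by omega)) _ (hw' (s - s / 2) (by omega))
      rw [← h4]
      congr 1
      have h5 : AdjoinRoot.root f ^ s =
          AdjoinRoot.root f ^ (s / 2) * AdjoinRoot.root f ^ (s - s / 2) := by
        rw [← pow_add]; congr 1; omega
      rw [h5]; ring
    · have h4 := h2 _ (hw' (g - 1) (by omega)) _ (hw' (g - 1) (by omega))
      rw [← h4]
      congr 1
      have h5 : AdjoinRoot.root f ^ s =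
          AdjoinRoot.root f * (AdjoinRoot.root f ^ (g - 1) * AdjoinRoot.root f ^ (g - 1)) := by
        rw [← pow_add, ← pow_succ']; congr 1; omega
      rw [h5]; ring
  obtain ⟨P, hPd, hP⟩ := exists_repr hf (by omega) (c * w * w)
  have hP0 : P.natDegree = 0 := by
    by_contra hne
    have h3 := hz (f.natDegree - 1 - P.natDegree) (by omega)
    rw [hP, ← AdjoinRoot.mk_X, ← map_pow, ← map_mul] at h3
    have h4 : (P * X ^ (f.natDegree - 1 - P.natDegree)).natDegree < f.natDegree := by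
      refine lt_of_le_of_lt natDegree_mul_le ?_
      have := natDegree_X_pow_le (R := F) (f.natDegree - 1 - P.natDegree)
      omega
    rw [tau_mk_lt hf _ h4] at h3
    have h6 : ∀ e, P.natDegree + e = f.natDegree - 1 →
        (P * X ^ e).coeff (f.natDegree - 1) = P.leadingCoeff := by
      intro e he
      rw [← he, coeff_mul_X_pow]
      rfl
    rw [h6 _ (by omega)] at h3
    exact hne (by rw [leadingCoeff_eq_zero.1 h3, natDegree_zero])
  obtain ⟨a, ha⟩ : ∃ a : F, c * w * w = algebraMap F (AdjoinRoot f) a := by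
    refine ⟨P.coeff 0, ?_⟩
    rw [hP, eq_C_of_natDegree_eq_zero hP0]
    simp [AdjoinRoot.algebraMap_eq]
  have hwu := hu w hw0
  have hnorm := congrArg (Algebra.norm F) ha
  rw [map_mul, map_mul, norm_const hf, hb, hdeg] at hnorm
  have hNw : Algebra.norm F w ≠ 0 := ((isUnit_iff_norm hf w).1 hwu).ne_zero
  have ha0 : a ≠ 0 := by
    rintro rfl
    rw [zero_pow (by omega)] at hnorm
    exact (mul_ne_zero (mul_ne_zero (pow_ne_zero 2 hb0) hNw) hNw) hnorm
  have hag : a ^ g ≠ 0 := pow_ne_zero g ha0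
  have hasq : a = (b * Algebra.norm F w / a ^ g) ^ 2 := by
    rw [div_pow, eq_div_iff (pow_ne_zero 2 hag)]
    calc a * (a ^ g) ^ 2 = a ^ (2 * g + 1) := by ring
      _ = (b * Algebra.norm F w) ^ 2 := by rw [← hnorm]; ring
  obtain ⟨w', hww'⟩ := hwu.exists_right_inv
  refine ⟨algebraMap F (AdjoinRoot f) (b * Algebra.norm F w / a ^ g) * w', ?_⟩
  calc c = c * w * w * (w' * w') := by
        have : c * w * w * (w' * w') = c * ((w * w') * (w * w')) := by ring
        rw [this, hww', mul_one, mul_one]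
    _ = algebraMap F (AdjoinRoot f) a * (w' * w') := by rw [ha]
    _ = algebraMap F (AdjoinRoot f) ((b * Algebra.norm F w / a ^ g) ^ 2) * (w' * w') := by
        rw [← hasq]
    _ = _ := by rw [map_pow]; ring

end Pool.Agent.HYP
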