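import Pool.Agent.Lib.HYP.Ifc
import Pool.Agent.Lib.BSDP.A.Deg

/-!
Module B.Lead: leading coefficients at infinity. `LC x n c`: `x = c t ^ n + y`, `y` of degree at
most `n - 1` (`c = 0` allowed).

PROOFS. The file `BSDP/A/Inf.lean` contains private versions (`LCR`) of `mul, add, neg, const,
ne_zero, exists`: copy them. `LC.of_poly`: `cc p - cc (C (p.coeff n)) * X ^ n = cc (p - C _ * X ^ n)` and
the polynomial `p - C (p.coeff n) * X ^ n` has degree `≤ n - 1` or is `0`; for a negative exponent
`p = 0`. `LC.sum`, `LC.prod`: induction on the finset. `LC.det`: `Matrix.det_apply'`, each term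
is the sign times `∏ i, M (σ i) i`, with leading coefficient at
`∑ i, (a (σ i) + b i) = ∑ a + ∑ b` (`Equiv.sum_comp`) equal to the sign times `∏ i, μ (σ i) i`.
-/

set_option autoImplicit false

open Polynomial

namespace Pool.Agent.HYP

open Pool.Agent.BSDP

variable {k : Type} [Field k]

private theorem inf_cc_add (p q : k[X]) : cc (p + q) = cc p + cc q := map_add _ p q
private theorem inf_cc_sub (p q : k[X]) : cc (p - q) = cc p - cc q := map_sub _ p q
private theorem inf_cc_mul (p q : k[X]) : cc (p * q) = cc p * cc q := map_mul _ p q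
private theorem inf_cc_neg (p : k[X]) : cc (-p) = -cc p := map_neg _ p
private theorem inf_cc_zero : cc (0 : k[X]) = 0 := map_zero _
private theorem inf_cc_pow (p : k[X]) (n : ℕ) : cc (p ^ n) = cc p ^ n := map_pow _ p n
private theorem inf_cc_X : cc (X : k[X]) = RatFunc.X := RatFunc.algebraMap_X

private theorem inf_X_ne : (RatFunc.X : RatFunc k) ≠ 0 := RatFunc.X_ne_zero

private theorem inf_intDegree_npow (n : ℕ) : ((RatFunc.X : RatFunc k) ^ n).intDegree = n := by
  induction n with
  | zero => simp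
  | succ n ih =>
    rw [pow_succ, RatFunc.intDegree_mul (pow_ne_zero _ inf_X_ne) inf_X_ne, ih, RatFunc.intDegree_X]
    push_cast
    ring

private theorem inf_intDegree_zpow (n : ℤ) : ((RatFunc.X : RatFunc k) ^ n).intDegree = n := by
  obtain ⟨j, rfl | rfl⟩ := n.eq_nat_or_neg
  · rw [zpow_natCast, inf_intDegree_npow]
  · rw [zpow_neg, RatFunc.intDegree_inv, zpow_natCast, inf_intDegree_npow]

private theorem inf_degLE_zpow (n : ℤ) : DegLE ((RatFunc.X : RatFunc k) ^ n) n :=
  Or.inr (inf_intDegree_zpow n).le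

private theorem inf_degLE_monic (c : k) (n : ℤ) : DegLE (cc (C c) * (RatFunc.X : RatFunc k) ^ n) n := by
  have h := (DegLE.const c).mul (inf_degLE_zpow n)
  rwa [zero_add] at h

/-- `x = c t ^ n` plus terms of degree at most `n - 1`. -/
def LC (x : RatFunc k) (n : ℤ) (c : k) : Prop :=
  DegLE (x - cc (C c) * (RatFunc.X : RatFunc k) ^ n) (n - 1)

theorem LC.degLE {x : RatFunc k} {n : ℤ} {c : k} (h : LC x n c) : DegLE x n := by
  have h1 := (DegLE.mono h (by omega)).add (inf_degLE_monic c n)
  rwa [sub_add_cancel] at h1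

theorem LC.of_degLE {x : RatFunc k} {n : ℤ} (h : DegLE x (n - 1)) : LC x n 0 := by
  unfold LC
  rw [C_0, inf_cc_zero, zero_mul, sub_zero]
  exact h

theorem LC.degLE_of_zero {x : RatFunc k} {n : ℤ} (h : LC x n 0) : DegLE x (n - 1) := by
  unfold LC at h
  rwa [C_0, inf_cc_zero, zero_mul, sub_zero] at h

theorem LC.add {x y : RatFunc k} {n : ℤ} {c c' : k} (h : LC x n c) (h' : LC y n c') :
    LC (x + y) n (c + c') := by
  have h1 := DegLE.add h h'
  have h6 : x + y - cc (C (c + c')) * (RatFunc.X : RatFunc k) ^ n =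
      (x - cc (C c) * (RatFunc.X : RatFunc k) ^ n) + (y - cc (C c') * (RatFunc.X : RatFunc k) ^ n) := by
    rw [C_add, inf_cc_add]
    ring
  unfold LC
  rw [h6]
  exact h1

private theorem LC.neg {x : RatFunc k} {n : ℤ} {c : k} (h : LC x n c) : LC (-x) n (-c) := by
  have h1 := DegLE.neg h
  have h6 : -x - cc (C (-c)) * (RatFunc.X : RatFunc k) ^ n =
      -(x - cc (C c) * (RatFunc.X : RatFunc k) ^ n) := by
    rw [C_neg, inf_cc_neg]
    ring
  unfold LC
  rw [h6]
  exact h1

theorem LC.sub {x y : RatFunc k} {n : ℤ} {c c' : k} (h : LC x n c) (h' : LC y n c') :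
    LC (x - y) n (c - c') := by
  rw [sub_eq_add_neg, sub_eq_add_neg]
  exact h.add h'.neg

theorem LC.mul {x y : RatFunc k} {n n' : ℤ} {c c' : k} (h : LC x n c) (h' : LC y n' c') :
    LC (x * y) (n + n') (c * c') := by
  unfold LC
  have h2 : DegLE ((x - cc (C c) * (RatFunc.X : RatFunc k) ^ n) * y) (n + n' - 1) := by
    have h3 := DegLE.mul h h'.degLE
    refine h3.mono (by omega)
  have h4 : DegLE (cc (C c) * (RatFunc.X : RatFunc k) ^ n * (y - cc (C c') * (RatFunc.X : RatFunc k) ^ n')) (n + n' - 1) := by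
    have h3 := (inf_degLE_monic c n).mul h'
    refine h3.mono (by omega)
  have h5 := h2.add h4
  have h6 : x * y - cc (C (c * c')) * (RatFunc.X : RatFunc k) ^ (n + n') =
      (x - cc (C c) * (RatFunc.X : RatFunc k) ^ n) * y +
        cc (C c) * (RatFunc.X : RatFunc k) ^ n * (y - cc (C c') * (RatFunc.X : RatFunc k) ^ n') := by
    rw [zpow_add₀ inf_X_ne, C_mul, inf_cc_mul]
    ring
  rw [h6]
  exact h5

theorem LC.const (c : k) : LC (cc (C c)) 0 c := by
  unfold LC
  rw [zpow_zero, mul_one, sub_self]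
  exact DegLE.zero _

private theorem LC.cast {x : RatFunc k} {n n' : ℤ} {c : k} (h : LC x n c) (hn : n = n') :
    LC x n' c := hn ▸ h

private theorem inf_LC_poly {P : k[X]} {j : ℕ} {c : k} (h : P.natDegree ≤ j) (hc : P.coeff j = c) :
    LC (cc P) j c := by
  unfold LC
  have e1 : cc P - cc (C c) * (RatFunc.X : RatFunc k) ^ (j : ℤ) = cc (P - C c * X ^ j) := by
    rw [zpow_natCast, inf_cc_sub, inf_cc_mul, inf_cc_pow, inf_cc_X]
  rw [e1, DegLE.cc_iff]
  by_cases h0 : P - C c * X ^ j = 0
  · exact Or.inl h0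
  · right
    have h1 : (P - C c * X ^ j).natDegree ≤ j := by
      refine (natDegree_sub_le _ _).trans (max_le h ?_)
      exact natDegree_C_mul_X_pow_le _ _
    have h2 : (P - C c * X ^ j).coeff j = 0 := by
      rw [coeff_sub, hc, coeff_C_mul, coeff_X_pow_self, mul_one, sub_self]
    have h3 : (P - C c * X ^ j).natDegree ≠ j := by
      intro he
      apply h0
      rw [← leadingCoeff_eq_zero, leadingCoeff, he]
      exact h2
    omega

theorem LC.of_nat {p : k[X]} {n : ℕ} (h : p.natDegree ≤ n) : LC (cc p) n (p.coeff n) :=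
  inf_LC_poly h rfl

theorem LC.of_poly {p : k[X]} {n : ℤ} (h : DegLE (cc p) n) :
    LC (cc p) n (if 0 ≤ n then p.coeff n.toNat else 0) := by
  split_ifs with hn
  · obtain ⟨m, rfl⟩ := Int.eq_ofNat_of_zero_le hn
    have h1 : p.natDegree ≤ m := (DegLE.cc_nat p m).1 h
    exact LC.of_nat h1
  · have h1 : cc p = 0 := DegLE.eq_zero ⟨p, rfl⟩ (by omega) h
    rw [h1]
    exact LC.of_degLE (DegLE.zero _)

theorem LC.ne_zero {x : RatFunc k} {n : ℤ} {c : k} (h : LC x n c) (hc : c ≠ 0) :
    x ≠ 0 ∧ x.intDegree = n := by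
  have hcc : cc (C c) ≠ (0 : RatFunc k) := by
    rw [Ne, FaithfulSMul.algebraMap_eq_zero_iff]
    exact C_ne_zero.mpr hc
  have key : ¬ DegLE x (n - 1) := by
    intro hx
    have h1 := hx.sub h
    rw [sub_sub_cancel] at h1
    rcases h1 with h1 | h1
    · exact mul_ne_zero hcc (zpow_ne_zero _ inf_X_ne) h1
    · rw [RatFunc.intDegree_mul hcc (zpow_ne_zero _ inf_X_ne), inf_intDegree_zpow, RatFunc.intDegree_polynomial,
        natDegree_C] at h1
      simp at h1
  have h2 := h.degLE
  unfold DegLE at key h2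
  push Not at key
  rcases h2 with h2 | h2
  · exact absurd h2 key.1
  · exact ⟨key.1, by omega⟩

theorem LC.exists {x : RatFunc k} {n : ℤ} (h : DegLE x n) : ∃ c : k, LC x n c := by
  by_cases hx : DegLE x (n - 1)
  · refine ⟨0, ?_⟩
    unfold LC
    rw [C_0, inf_cc_zero, zero_mul, sub_zero]
    exact hx
  · have hx0 : x ≠ 0 := fun h0 => hx (Or.inl h0)
    have hd : x.intDegree = n := by
      rcases h with h | h
      · exact absurd h hx0
      · unfold DegLE at hx
        push Not at hx
        have := hx.2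
        omega
    have hq0 : x.denom ≠ 0 := x.denom_ne_zero
    have hp0 : x.num ≠ 0 := RatFunc.num_ne_zero hx0
    have hd' : (x.num.natDegree : ℤ) - x.denom.natDegree = n := hd
    refine ⟨x.num.leadingCoeff, ?_⟩
    have hxq : x * cc x.denom = cc x.num := by
      have h1 := RatFunc.num_div_denom x
      rw [div_eq_iff ((map_ne_zero_iff _ (RatFunc.algebraMap_injective k)).mpr hq0)] at h1
      exact h1.symm
    -- the polynomial
    have hpoly : DegLE (cc (X ^ x.denom.natDegree * x.num - C x.num.leadingCoeff * X ^ x.num.natDegree * x.denom))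
        ((x.denom.natDegree : ℤ) + x.num.natDegree - 1) := by
      rw [DegLE.cc_iff]
      by_cases h0 : X ^ x.denom.natDegree * x.num - C x.num.leadingCoeff * X ^ x.num.natDegree * x.denom = 0
      · exact Or.inl h0
      · right
        have h1 : (X ^ x.denom.natDegree * x.num - C x.num.leadingCoeff * X ^ x.num.natDegree * x.denom).degree <
            (X ^ x.denom.natDegree * x.num).degree := by
          apply degree_sub_lt_left
          · rw [degree_mul, degree_mul, degree_mul, degree_C (leadingCoeff_ne_zero.mpr hp0), degree_X_pow, degree_X_pow,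
              degree_eq_natDegree hp0, degree_eq_natDegree hq0, zero_add, add_comm]
          · exact mul_ne_zero (pow_ne_zero _ X_ne_zero) hp0
          · rw [leadingCoeff_mul, leadingCoeff_mul, leadingCoeff_mul, leadingCoeff_C, leadingCoeff_X_pow,
              leadingCoeff_X_pow, (RatFunc.monic_denom x).leadingCoeff]
            ring
        rw [degree_mul, degree_X_pow, degree_eq_natDegree hp0, degree_eq_natDegree h0] at h1
        have h2 : (X ^ x.denom.natDegree * x.num - C x.num.leadingCoeff * X ^ x.num.natDegree * x.denom).natDegree <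
            x.denom.natDegree + x.num.natDegree := by exact_mod_cast h1
        omega
    have hcq : cc x.denom ≠ 0 := (map_ne_zero_iff _ (RatFunc.algebraMap_injective k)).mpr hq0
    have hne : (RatFunc.X : RatFunc k) ^ x.denom.natDegree * cc x.denom ≠ 0 :=
      mul_ne_zero (pow_ne_zero _ inf_X_ne) hcq
    have e1 : ((RatFunc.X : RatFunc k) ^ x.denom.natDegree * cc x.denom).intDegree =
        (x.denom.natDegree : ℤ) + x.denom.natDegree := by
      rw [RatFunc.intDegree_mul (pow_ne_zero _ inf_X_ne) hcq, inf_intDegree_npow, RatFunc.intDegree_polynomial]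
    unfold LC
    rw [← DegLE.mul_iff hne, e1]
    have e2 : (RatFunc.X : RatFunc k) ^ x.denom.natDegree * cc x.denom *
        (x - cc (C x.num.leadingCoeff) * (RatFunc.X : RatFunc k) ^ n) =
        cc (X ^ x.denom.natDegree * x.num - C x.num.leadingCoeff * X ^ x.num.natDegree * x.denom) := by
      have e3 : (RatFunc.X : RatFunc k) ^ n * (RatFunc.X : RatFunc k) ^ x.denom.natDegree =
          (RatFunc.X : RatFunc k) ^ x.num.natDegree := by
        rw [← zpow_natCast, ← zpow_natCast, ← zpow_add₀ inf_X_ne]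
        congr 1
        omega
      rw [inf_cc_sub, inf_cc_mul, inf_cc_mul, inf_cc_mul, inf_cc_pow, inf_cc_pow, inf_cc_X, ← e3, ← hxq]
      ring
    rw [e2]
    refine hpoly.mono ?_
    omega

theorem LC.uniq {x : RatFunc k} {n : ℤ} {c c' : k} (h : LC x n c) (h' : LC x n c') :
    c = c' := by
  by_contra hne
  have h1 := h.sub h'
  rw [sub_self] at h1
  exact (h1.ne_zero (sub_ne_zero.2 hne)).1 rfl

theorem LC.sum {ι : Type} (s : Finset ι) (x : ι → RatFunc k) (c : ι → k) {n : ℤ}
    (h : ∀ i ∈ s, LC (x i) n (c i)) : LC (∑ i ∈ s, x i) n (∑ i ∈ s, c i) := by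
  classical
  induction s using Finset.induction_on with
  | empty =>
    rw [Finset.sum_empty, Finset.sum_empty]
    exact LC.of_degLE (DegLE.zero _)
  | insert a s ha ih =>
    rw [Finset.sum_insert ha, Finset.sum_insert ha]
    exact (h a (Finset.mem_insert_self a s)).add (ih fun i hi => h i (Finset.mem_insert_of_mem hi))

theorem LC.prod {ι : Type} (s : Finset ι) (x : ι → RatFunc k) (c : ι → k) (n : ι → ℤ)
    (h : ∀ i ∈ s, LC (x i) (n i) (c i)) : LC (∏ i ∈ s, x i) (∑ i ∈ s, n i) (∏ i ∈ s, c i) := by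
  classical
  induction s using Finset.induction_on with
  | empty =>
    rw [Finset.prod_empty, Finset.prod_empty, Finset.sum_empty]
    have h1 := LC.const (1 : k)
    have h2 : cc (1 : k[X]) = 1 := map_one _
    rwa [C_1, h2] at h1
  | insert a s ha ih =>
    rw [Finset.prod_insert ha, Finset.prod_insert ha, Finset.sum_insert ha]
    exact (h a (Finset.mem_insert_self a s)).mul (ih fun i hi => h i (Finset.mem_insert_of_mem hi))

theorem LC.det {n : ℕ} (M : Matrix (Fin n) (Fin n) (RatFunc k)) (μ : Matrix (Fin n) (Fin n) k)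
    (a b : Fin n → ℤ) (h : ∀ i j, LC (M i j) (a i + b j) (μ i j)) :
    LC M.det (∑ i, a i + ∑ i, b i) μ.det := by
  rw [Matrix.det_apply', Matrix.det_apply']
  refine LC.sum _ _ _ fun σ _ => ?_
  have h1 : LC (∏ i, M (σ i) i) (∑ i, (a (σ i) + b i)) (∏ i, μ (σ i) i) :=
    LC.prod _ _ _ _ fun i _ => h (σ i) i
  have h2 : ∑ i, (a (σ i) + b i) = ∑ i, a i + ∑ i, b i := by
    rw [Finset.sum_add_distrib, Equiv.sum_comp σ a]
  rw [h2] at h1
  have h3 : LC (((Equiv.Perm.sign σ : ℤ) : RatFunc k)) 0 (((Equiv.Perm.sign σ : ℤ) : k)) := by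
    have h4 := LC.const (((Equiv.Perm.sign σ : ℤ) : k))
    have h5 : cc (C (((Equiv.Perm.sign σ : ℤ) : k))) = (((Equiv.Perm.sign σ : ℤ) : RatFunc k)) := by
      rw [map_intCast]
      exact map_intCast (algebraMap k[X] (RatFunc k)) _
    rwa [h5] at h4
  have h6 := h3.mul h1
  rwa [zero_add] at h6

end Pool.Agent.HYP
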