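import Pool.Agent.Lib.HYP.B.Deg
import Pool.Agent.Lib.HYP.B.Lead

/-!
Module B.Top: the leading form at infinity of an element of `L`: `Top l N lam` says that the
coefficient of `θ ^ i` of `l` is `lam_i t ^ (N - 2 m i)` plus lower terms, `lam ∈ k[x]/(φ)`.

PROOFS. `Top.mk`: induction on a bound `d` for the degrees of both `P` and `p`: if `d < n` there is
nothing to do (`%ₘ` does nothing, `Polynomial.modByMonic_eq_self_iff`,
`AdjoinRoot.modByMonicHom_mk`); if `d ≥ n` replace `P` by `P - C (P.coeff d) * X ^ (d - n) * fK f` and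
`p` by `p - C (p.coeff d) * X ^ (d - n) * φ`, which does not change the classes
(`AdjoinRoot.mk_eq_mk`/`modByMonic_eq_of_dvd_sub`), lowers the bound, and keeps the condition
(`LC.sub`, `LC.mul`, `LC.of_nat`: `f.coeff j` has degree `≤ 2 m (n - j)` with coefficient
`φ.coeff j`, `Fam.degc`, `Fam.lead`; both are `0` for `j > n`).
`Top.mul`: apply `Top.mk` to the product of the representatives (`Polynomial.coeff_mul`, `LC.sum`,
`LC.mul`). `Top.exists`: `LC.exists` for each of the `n` coefficients; `lam = mk φ (∑ i, C (c i) X ^ i)`.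
`Top.wle`: `LC.degLE`. `Top.wle_of_zero`: `LC.degLE_of_zero`. `Top.root`, `Top.one`: `Top.mk` with
`X`, `1`.
-/

set_option autoImplicit false

open Polynomial

namespace Pool.Agent.HYP

open Pool.Agent.BSDP

variable {k : Type} [Field k] {g m : ℕ} {φ : k[X]} {f : k[X][X]}

/-- The leading form at infinity of `l` is `lam t ^ N`. -/
def Top (m : ℕ) {φ : k[X]} (hφ : φ.Monic) {F : (RatFunc k)[X]} (hF : F.Monic)
    (l : AdjoinRoot F) (N : ℤ) (lam : AdjoinRoot φ) : Prop :=
  ∀ i : ℕ, LC ((AdjoinRoot.modByMonicHom hF l).coeff i) (N - 2 * m * i)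
    ((AdjoinRoot.modByMonicHom hφ lam).coeff i)

private theorem LC.zero' (n : ℤ) : LC (0 : RatFunc k) n 0 := LC.of_degLE (DegLE.zero _)

private theorem red_mod {S : Type} [CommRing S] [Nontrivial S] {F : S[X]} (hF : F.Monic) {n d : ℕ}
    (P : S[X]) (a : S) :
    (P - C a * (X ^ (d - n) * F)) %ₘ F = P %ₘ F := by
  refine Polynomial.modByMonic_eq_of_dvd_sub hF ?_
  refine ⟨- (C a * X ^ (d - n)), ?_⟩
  ring

private theorem red_coeff {S : Type} [CommRing S] {F : S[X]} (P : S[X]) (a : S) (e i : ℕ) :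
    (P - C a * (X ^ e * F)).coeff i = P.coeff i - a * (if e ≤ i then F.coeff (i - e) else 0) := by
  rw [coeff_sub, coeff_C_mul, coeff_X_pow_mul']

private theorem red_deg {S : Type} [CommRing S] {F : S[X]} (hF : F.Monic) {n d : ℕ}
    (hn : F.natDegree = n) (hd : n ≤ d + 1) (P : S[X]) (hP : P.natDegree ≤ d + 1) :
    (P - C (P.coeff (d + 1)) * (X ^ (d + 1 - n) * F)).natDegree ≤ d := by
  rw [Polynomial.natDegree_le_iff_coeff_eq_zero]
  intro i hi
  rw [red_coeff]
  have h1 : d + 1 - n ≤ i := by omega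
  rw [if_pos h1]
  by_cases h2 : i = d + 1
  · subst h2
    have h3 : d + 1 - (d + 1 - n) = n := by omega
    have h4 : F.coeff n = 1 := by
      rw [← hn]
      exact hF
    rw [h3, h4, mul_one, sub_self]
  · have h3 : P.coeff i = 0 := Polynomial.coeff_eq_zero_of_natDegree_lt (by omega)
    have h4 : F.coeff (i - (d + 1 - n)) = 0 :=
      Polynomial.coeff_eq_zero_of_natDegree_lt (by omega)
    rw [h3, h4, mul_zero, sub_self]

private theorem top_aux (hφ : LeadForm g φ) (hf : Fam g m φ f) (hm : (fK f).Monic) (N : ℤ)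
    (d : ℕ) : ∀ (P : (RatFunc k)[X]) (p : k[X]), P.natDegree ≤ d → p.natDegree ≤ d →
    (∀ i : ℕ, LC (P.coeff i) (N - 2 * m * i) (p.coeff i)) →
    ∀ i : ℕ, LC ((P %ₘ fK f).coeff i) (N - 2 * m * i) ((p %ₘ φ).coeff i) := by
  have hFn : (fK f).natDegree = 2 * g + 1 := by
    rw [hf.monic.natDegree_map, hf.deg]
  have base : ∀ (d : ℕ), d < 2 * g + 1 → ∀ (P : (RatFunc k)[X]) (p : k[X]), P.natDegree ≤ d →
      p.natDegree ≤ d → (∀ i : ℕ, LC (P.coeff i) (N - 2 * m * i) (p.coeff i)) →
      ∀ i : ℕ, LC ((P %ₘ fK f).coeff i) (N - 2 * m * i) ((p %ₘ φ).coeff i) := by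
    intro d hd P p hP hp h i
    have h1 : P %ₘ fK f = P := by
      rw [Polynomial.modByMonic_eq_self_iff hm]
      refine Polynomial.degree_lt_degree ?_
      rw [hFn]
      omega
    have h2 : p %ₘ φ = p := by
      rw [Polynomial.modByMonic_eq_self_iff hφ.monic]
      refine Polynomial.degree_lt_degree ?_
      rw [hφ.deg]
      omega
    rw [h1, h2]
    exact h i
  induction d with
  | zero =>
    exact base 0 (by omega)
  | succ d ih =>
    by_cases hd : d + 1 < 2 * g + 1
    · exact base (d + 1) hd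
    · have hd' : 2 * g + 1 ≤ d + 1 := Nat.le_of_not_lt hd
      intro P p hP hp h i
      have h1 := ih (P - C (P.coeff (d + 1)) * (X ^ (d + 1 - (2 * g + 1)) * fK f))
        (p - C (p.coeff (d + 1)) * (X ^ (d + 1 - (2 * g + 1)) * φ))
        (red_deg hm hFn hd' P hP) (red_deg hφ.monic hφ.deg hd' p hp) (by
          intro i
          rw [red_coeff, red_coeff]
          refine LC.sub (h i) ?_
          by_cases h2 : d + 1 - (2 * g + 1) ≤ i
          · rw [if_pos h2, if_pos h2]
            obtain ⟨j, rfl⟩ := Nat.exists_eq_add_of_le h2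
            rw [Nat.add_sub_cancel_left]
            by_cases h3 : j ≤ 2 * g + 1
            · have h4 : LC ((fK f).coeff j) ((2 * m * (2 * g + 1 - j) : ℕ) : ℤ) (φ.coeff j) := by
                have h5 := LC.of_nat (hf.degc j h3)
                rw [hf.lead j h3] at h5
                rw [coeff_map]
                exact h5
              have h6 := LC.mul (h (d + 1)) h4
              have h7 : (N - 2 * m * ((d + 1 : ℕ) : ℤ) + ((2 * m * (2 * g + 1 - j) : ℕ) : ℤ)) =
                  N - 2 * m * ((d + 1 - (2 * g + 1) + j : ℕ) : ℤ) := by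
                have e1 : ((d + 1 - (2 * g + 1) + j : ℕ) : ℤ) = (d : ℤ) + 1 - (2 * g + 1) + j := by
                  omega
                have e2 : ((2 * m * (2 * g + 1 - j) : ℕ) : ℤ) = 2 * m * (2 * g + 1 - j) := by
                  rw [Nat.cast_mul, Nat.cast_mul, Nat.cast_sub h3]
                  push_cast
                  ring
                rw [e1, e2]
                push_cast
                ring
              rw [h7] at h6
              exact h6
            · have h4 : (fK f).coeff j = 0 :=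
                Polynomial.coeff_eq_zero_of_natDegree_lt (by omega)
              have h5 : φ.coeff j = 0 :=
                Polynomial.coeff_eq_zero_of_natDegree_lt (by
                  rw [hφ.deg]
                  omega)
              rw [h4, h5, mul_zero, mul_zero]
              exact LC.zero' _
          · rw [if_neg h2, if_neg h2, mul_zero, mul_zero]
            exact LC.zero' _) i
      rw [red_mod hm, red_mod hφ.monic] at h1
      exact h1

theorem Top.mk (hφ : LeadForm g φ) (hf : Fam g m φ f) (hm : (fK f).Monic) (P : (RatFunc k)[X])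
    (p : k[X]) {N : ℤ} (h : ∀ i : ℕ, LC (P.coeff i) (N - 2 * m * i) (p.coeff i)) :
    Top m hφ.monic hm (AdjoinRoot.mk _ P) N (AdjoinRoot.mk _ p) := by
  intro i
  rw [AdjoinRoot.modByMonicHom_mk, AdjoinRoot.modByMonicHom_mk]
  exact top_aux hφ hf hm N (max P.natDegree p.natDegree) P p (le_max_left _ _) (le_max_right _ _)
    h i

theorem Top.mul (hφ : LeadForm g φ) (hf : Fam g m φ f) (hm : (fK f).Monic)
    {l l' : AdjoinRoot (fK f)} {N N' : ℤ} {lam lam' : AdjoinRoot φ}
    (h : Top m hφ.monic hm l N lam) (h' : Top m hφ.monic hm l' N' lam') :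
    Top m hφ.monic hm (l * l') (N + N') (lam * lam') := by
  obtain ⟨P, hP⟩ : ∃ P, P = AdjoinRoot.modByMonicHom hm l := ⟨_, rfl⟩
  obtain ⟨P', hP'⟩ : ∃ P, P = AdjoinRoot.modByMonicHom hm l' := ⟨_, rfl⟩
  obtain ⟨p, hp⟩ : ∃ P, P = AdjoinRoot.modByMonicHom hφ.monic lam := ⟨_, rfl⟩
  obtain ⟨p', hp'⟩ : ∃ P, P = AdjoinRoot.modByMonicHom hφ.monic lam' := ⟨_, rfl⟩
  have h1 : AdjoinRoot.mk _ P = l := by
    rw [hP]
    exact AdjoinRoot.mk_leftInverse hm l
  have h2 : AdjoinRoot.mk _ P' = l' := by
    rw [hP']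
    exact AdjoinRoot.mk_leftInverse hm l'
  have h3 : AdjoinRoot.mk _ p = lam := by
    rw [hp]
    exact AdjoinRoot.mk_leftInverse hφ.monic lam
  have h4 : AdjoinRoot.mk _ p' = lam' := by
    rw [hp']
    exact AdjoinRoot.mk_leftInverse hφ.monic lam'
  have h5 : ∀ i : ℕ, LC (P.coeff i) (N - 2 * m * i) (p.coeff i) := by
    intro i
    rw [hP, hp]
    exact h i
  have h6 : ∀ i : ℕ, LC (P'.coeff i) (N' - 2 * m * i) (p'.coeff i) := by
    intro i
    rw [hP', hp']
    exact h' i
  rw [← h1, ← h2, ← h3, ← h4, ← map_mul, ← map_mul]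
  refine Top.mk hφ hf hm _ _ fun i => ?_
  rw [coeff_mul, coeff_mul]
  refine LC.sum _ _ _ fun x hx => ?_
  have h7 := LC.mul (h5 x.1) (h6 x.2)
  have h8 : N - 2 * m * (x.1 : ℤ) + (N' - 2 * m * (x.2 : ℤ)) = N + N' - 2 * m * (i : ℤ) := by
    rw [← Finset.HasAntidiagonal.mem_antidiagonal.1 hx]
    push_cast
    ring
  rw [h8] at h7
  exact h7

theorem Top.exists (hφ : LeadForm g φ) (hf : Fam g m φ f) (hm : (fK f).Monic)
    {l : AdjoinRoot (fK f)} {N : ℤ} (h : WLE m hm l N) :
    ∃ lam : AdjoinRoot φ, Top m hφ.monic hm l N lam := by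
  have hFn : (fK f).natDegree = 2 * g + 1 := by
    rw [hf.monic.natDegree_map, hf.deg]
  choose c hc using fun i => LC.exists (h i)
  refine ⟨AdjoinRoot.mk _ (∑ i ∈ Finset.range (2 * g + 1), C (c i) * X ^ i), ?_⟩
  have h1 : AdjoinRoot.mk _ (AdjoinRoot.modByMonicHom hm l) = l := AdjoinRoot.mk_leftInverse hm l
  have h2 : Top m hφ.monic hm (AdjoinRoot.mk _ (AdjoinRoot.modByMonicHom hm l)) N
      (AdjoinRoot.mk _ (∑ i ∈ Finset.range (2 * g + 1), C (c i) * X ^ i)) := by
    refine Top.mk hφ hf hm _ _ fun i => ?_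
    rw [Polynomial.finsetSum_coeff]
    have h3 : ∀ j ∈ Finset.range (2 * g + 1), (C (c j) * X ^ j : k[X]).coeff i =
        if i = j then c j else 0 := fun j _ => by
      rw [coeff_C_mul_X_pow]
    rw [Finset.sum_congr rfl h3, Finset.sum_ite_eq]
    by_cases h4 : i ∈ Finset.range (2 * g + 1)
    · rw [if_pos h4]
      exact hc i
    · rw [if_neg h4]
      have h5 : (AdjoinRoot.modByMonicHom hm l).coeff i = 0 := by
        rw [← h1, AdjoinRoot.modByMonicHom_mk]
        refine Polynomial.coeff_eq_zero_of_degree_lt ?_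
        refine lt_of_lt_of_le (Polynomial.degree_modByMonic_lt _ hm) ?_
        rw [Polynomial.degree_eq_natDegree hm.ne_zero, hFn]
        have h6 : 2 * g + 1 ≤ i := by
          rw [Finset.mem_range] at h4
          omega
        exact_mod_cast h6
      rw [h5]
      exact LC.zero' _
  rw [h1] at h2
  exact h2

theorem Top.wle (hφ : LeadForm g φ) (hm : (fK f).Monic)
    {l : AdjoinRoot (fK f)} {N : ℤ} {lam : AdjoinRoot φ} (h : Top m hφ.monic hm l N lam) :
    WLE m hm l N := by
  exact fun i => (h i).degLE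

theorem Top.wle_of_zero (hφ : LeadForm g φ) (hm : (fK f).Monic)
    {l : AdjoinRoot (fK f)} {N : ℤ} (h : Top m hφ.monic hm l N 0) : WLE m hm l (N - 1) := by
  intro i
  have h1 := h i
  rw [map_zero, coeff_zero] at h1
  have h2 := h1.degLE_of_zero
  have h3 : N - 2 * m * (i : ℤ) - 1 = N - 1 - 2 * m * (i : ℤ) := by ring
  rw [h3] at h2
  exact h2

theorem Top.one (hφ : LeadForm g φ) (hf : Fam g m φ f) (hm : (fK f).Monic) :
    Top m hφ.monic hm 1 0 1 := by
  have h1 := Top.mk (m := m) hφ hf hm 1 1 (N := 0) (by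
    intro i
    rw [coeff_one, coeff_one]
    by_cases h : i = 0
    · subst h
      rw [if_pos rfl, if_pos rfl]
      have h2 := LC.const (k := k) 1
      have h3 : (cc (C (1 : k)) : RatFunc k) = 1 := by
        rw [C_1]
        exact map_one (algebraMap k[X] (RatFunc k))
      rw [h3] at h2
      have h4 : (0 : ℤ) - 2 * m * ((0 : ℕ) : ℤ) = 0 := by
        push_cast
        ring
      rw [h4]
      exact h2
    · rw [if_neg h, if_neg h]
      exact LC.zero' _)
  rw [map_one, map_one] at h1
  exact h1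

theorem Top.root_pow (hφ : LeadForm g φ) (hf : Fam g m φ f) (hm : (fK f).Monic) (j : ℕ) :
    Top m hφ.monic hm (AdjoinRoot.root (fK f) ^ j) (2 * m * j) (AdjoinRoot.root φ ^ j) := by
  have h1 := Top.mk (m := m) hφ hf hm (X ^ j) (X ^ j) (N := 2 * m * j) (by
    intro i
    rw [coeff_X_pow, coeff_X_pow]
    by_cases h : i = j
    · subst h
      rw [if_pos rfl, if_pos rfl]
      have h2 := LC.const (k := k) 1
      have h3 : (cc (C (1 : k)) : RatFunc k) = 1 := by
        rw [C_1]
        exact map_one (algebraMap k[X] (RatFunc k))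
      rw [h3] at h2
      rw [sub_self]
      exact h2
    · rw [if_neg h, if_neg h]
      exact LC.zero' _)
  rw [map_pow, map_pow, AdjoinRoot.mk_X, AdjoinRoot.mk_X] at h1
  exact h1

end Pool.Agent.HYP
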