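import Pool.Agent.Lib.HYP.L.Norm
import Pool.Agent.Lib.HYP.B.Top

/-!
Module B.Norm: the place at infinity is inert in `L`: the norm of `c ≠ 0` of weighted degree
exactly `N` has degree exactly `(2 g + 1) N`.

PROOF of `exists_norm_deg`. There is `N` with `WLE m hm c N` and not `WLE m hm c (N - 1)`: it
exists because for `c ≠ 0` some coefficient `x ≠ 0` of `θ ^ i` has a definite degree, so
`WLE m hm c N` implies `N ≥ x.intDegree + 2 m i` (`WLE.exists` for the existence;
`Int.exists_least_of_bdd`). By `Top.exists` `Top c N lam`, and `lam ≠ 0` by `Top.wle_of_zero`.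
With the power bases of `AdjoinRoot (fK f)` and `AdjoinRoot φ` (`AdjoinRoot.powerBasis'`), the
matrix of multiplication by `c` has the entry `(i, j)` = coefficient of `θ ^ i` of `c θ ^ j`
(`Algebra.leftMulMatrix_apply`, `LinearMap.toMatrix_apply`,
`AdjoinRoot.powerBasisAux'_repr_apply_to_fun`), and `Top (c θ ^ j) (N + 2 m j) (lam x ^ j)`
(`Top.mul`, `Top.root_pow`), so `LC (entry i j) ((N - 2 m i) + 2 m j) (entry of lam)`. By `LC.det`
(with `a i = N - 2 m i`, `b j = 2 m j`; reindex both matrices to `Fin (2 g + 1)` by `hdeg`,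
`φ.natDegree = (fK f).natDegree = 2 g + 1`) `LC (norm c) (n N) (norm lam)`
(`Algebra.norm_eq_matrix_det`), and `norm lam ≠ 0`: `lam` is a unit since `AdjoinRoot φ` is a field
(`AdjoinRoot.instField`, `Fact (Irreducible φ)`), `isUnit_iff_norm`. Now `LC.ne_zero`.
`isUnit_of_ne_zero`: `norm c ≠ 0`, `isUnit_iff_norm`.
-/

set_option autoImplicit false

open Polynomial

namespace Pool.Agent.HYP

open Pool.Agent.BSDP

variable {k : Type} [Field k] {g m : ℕ} {φ : k[X]} {f : k[X][X]}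

private theorem nd_norm {S : Type} [CommRing S] {f : S[X]} (hf : f.Monic) {n : ℕ}
    (hn : f.natDegree = n) (c : AdjoinRoot f) :
    Algebra.norm S c = (Matrix.of fun i j : Fin n =>
      (AdjoinRoot.modByMonicHom hf (c * AdjoinRoot.root f ^ (j : ℕ))).coeff (i : ℕ)).det := by
  subst hn
  rw [Algebra.norm_eq_matrix_det (AdjoinRoot.powerBasisAux' hf) c]
  congr 1
  ext i j
  rw [Algebra.leftMulMatrix_eq_repr_mul, AdjoinRoot.powerBasisAux'_repr_apply_to_fun]
  have h1 : AdjoinRoot.powerBasisAux' hf j = AdjoinRoot.root f ^ (j : ℕ) :=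
    (AdjoinRoot.powerBasis' hf).basis_eq_pow j
  rw [h1]
  rfl

/-- the exact weighted degree -/
private theorem nd_exact {m : ℕ} {F : (RatFunc k)[X]} (hF : F.Monic) (c : AdjoinRoot F)
    (hc : c ≠ 0) : ∃ N : ℤ, WLE m hF c N ∧ ¬ WLE m hF c (N - 1) := by
  have hP : AdjoinRoot.modByMonicHom hF c ≠ 0 := by
    intro h
    apply hc
    have h1 := AdjoinRoot.mk_leftInverse hF c
    rw [h, map_zero] at h1
    exact h1.symm
  obtain ⟨i₀, hi₀, hmax⟩ := Finset.exists_max_image (AdjoinRoot.modByMonicHom hF c).support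
    (fun i => ((AdjoinRoot.modByMonicHom hF c).coeff i).intDegree + 2 * m * i)
    (support_nonempty.2 hP)
  refine ⟨((AdjoinRoot.modByMonicHom hF c).coeff i₀).intDegree + 2 * m * i₀, fun i => ?_,
    fun h => ?_⟩
  · by_cases hi : (AdjoinRoot.modByMonicHom hF c).coeff i = 0
    · exact Or.inl hi
    · have h1 := hmax i (mem_support_iff.2 hi)
      exact Or.inr (by linarith)
  · have h1 := (h i₀).resolve_left (mem_support_iff.1 hi₀)
    linarith

theorem exists_norm_deg (hφ : LeadForm g φ) (hf : Fam g m φ f) (hm : (fK f).Monic)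
    (c : AdjoinRoot (fK f)) (hc : c ≠ 0) :
    ∃ N : ℤ, WLE m hm c N ∧ Algebra.norm (RatFunc k) c ≠ 0 ∧
      (Algebra.norm (RatFunc k) c).intDegree = (2 * g + 1) * N := by
  obtain ⟨N, hN, hN'⟩ := nd_exact (m := m) hm c hc
  obtain ⟨lam, hlam⟩ := Top.exists hφ hf hm hN
  have hlam0 : lam ≠ 0 := by
    rintro rfl
    exact hN' (Top.wle_of_zero hφ hm hlam)
  have hfd : (fK f).natDegree = 2 * g + 1 := by
    rw [← hf.deg]
    exact hf.monic.natDegree_map _
  have : Fact (Irreducible φ) := ⟨hφ.irr⟩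
  have hu : IsUnit lam := isUnit_iff_ne_zero.2 hlam0
  have hn0 : Algebra.norm k lam ≠ 0 := ((isUnit_iff_norm hφ.monic lam).1 hu).ne_zero
  have hdet : LC (Algebra.norm (RatFunc k) c)
      (∑ i : Fin (2 * g + 1), (N - 2 * m * ((i : ℕ) : ℤ)) +
        ∑ j : Fin (2 * g + 1), 2 * m * ((j : ℕ) : ℤ)) (Algebra.norm k lam) := by
    rw [nd_norm hm hfd c, nd_norm hφ.monic hφ.deg lam]
    refine LC.det _ _ _ _ fun i j => ?_
    have h1 := Top.mul hφ hf hm hlam (Top.root_pow hφ hf hm (j : ℕ)) (i : ℕ)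
    have h2 : N - 2 * m * ((i : ℕ) : ℤ) + 2 * m * ((j : ℕ) : ℤ) =
        N + 2 * m * ((j : ℕ) : ℤ) - 2 * m * ((i : ℕ) : ℤ) := by ring
    rw [h2]
    exact h1
  have hsum : (∑ i : Fin (2 * g + 1), (N - 2 * m * ((i : ℕ) : ℤ)) +
        ∑ j : Fin (2 * g + 1), 2 * m * ((j : ℕ) : ℤ)) = (2 * g + 1) * N := by
    rw [Finset.sum_sub_distrib, sub_add_cancel, Finset.sum_const, Finset.card_univ,
      Fintype.card_fin, nsmul_eq_mul]
    push_cast
    ring
  rw [hsum] at hdet
  obtain ⟨h1, h2⟩ := LC.ne_zero hdet hn0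
  exact ⟨N, hN, h1, h2⟩

theorem isUnit_of_ne_zero (hφ : LeadForm g φ) (hf : Fam g m φ f) (hm : (fK f).Monic)
    (c : AdjoinRoot (fK f)) (hc : c ≠ 0) : IsUnit c := by
  obtain ⟨N, _, h1, _⟩ := exists_norm_deg hφ hf hm c hc
  exact (isUnit_iff_norm hm c).2 (isUnit_iff_ne_zero.2 h1)

end Pool.Agent.HYP
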