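import Pool.Agent.Lib.HYP.Ifc

/-!
Module B.Row: row reduction of `n × n` matrices over `k[t]`.

PROOF. The same as `Pool/Agent/Lib/BSDP/B/Row.lean` (the case `n = 3`, generalised): choose
`U` with `IsUnit U.det` and `ν` bounding the degrees of the rows of `U * M` with `∑ ν` minimal. The
coefficient of `t ^ (∑ ν)` in `det (U * M)` is the determinant of the matrix of the coefficients of
`t ^ (ν i)`. If `∑ ν > natDegree (det M)` it is `0`, there is `c ≠ 0` with `vecMul c = 0`
(`Matrix.exists_vecMul_eq_zero_iff`), and row `i₀` (`c i₀ ≠ 0`, `ν i₀` maximal) can be lowered by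
`Matrix.updateRow`. Finally sort with `Tuple.sort`.
-/

set_option autoImplicit false

open Polynomial

namespace Pool.Agent.HYP

private lemma coeff_prod_sum {k : Type} [Field k] {ι : Type} (s : Finset ι) (p : ι → k[X])
    (ν : ι → ℕ) (h : ∀ i ∈ s, (p i).natDegree ≤ ν i) :
    (∏ i ∈ s, p i).coeff (∑ i ∈ s, ν i) = ∏ i ∈ s, (p i).coeff (ν i) ∧
      (∏ i ∈ s, p i).natDegree ≤ ∑ i ∈ s, ν i := by
  classical
  induction s using Finset.induction_on with
  | empty => simp
  | insert a s ha ih =>
    have h1 := h a (Finset.mem_insert_self a s)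
    obtain ⟨h2, h3⟩ := ih fun i hi => h i (Finset.mem_insert_of_mem hi)
    rw [Finset.prod_insert ha, Finset.sum_insert ha, Finset.prod_insert ha]
    refine ⟨?_, natDegree_mul_le_of_le h1 h3⟩
    rw [coeff_mul_add_eq_of_natDegree_le h1 h3, h2]

private lemma coeff_detn {k : Type} [Field k] {n : ℕ} (N : Matrix (Fin n) (Fin n) k[X])
    (ν : Fin n → ℕ) (h : ∀ i j, (N i j).natDegree ≤ ν i) :
    N.det.coeff (∑ i, ν i) = (Matrix.of fun i j => (N i j).coeff (ν i)).det := by
  rw [Matrix.det_apply, Matrix.det_apply, finsetSum_coeff]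
  refine Finset.sum_congr rfl fun σ _ => ?_
  have h1 := (coeff_prod_sum Finset.univ (fun i => N (σ i) i) (fun i => ν (σ i))
    fun i _ => h (σ i) i).1
  rw [Equiv.sum_comp σ ν] at h1
  rcases Int.units_eq_one_or (Equiv.Perm.sign σ) with h2 | h2
  · rw [h2, one_smul, one_smul, h1]
    rfl
  · rw [h2, Units.neg_smul, one_smul, Units.neg_smul, one_smul, coeff_neg, h1]
    rfl

private lemma det_upd {R : Type} [CommRing R] {n : ℕ} (v : Fin n → R) (i : Fin n) :
    ((1 : Matrix (Fin n) (Fin n) R).updateRow i v).det = v i := by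
  rw [← Matrix.cramer_transpose_apply, Matrix.transpose_one, Matrix.cramer_one]
  rfl

theorem row_reduce {k : Type} [Field k] {n : ℕ} (M : Matrix (Fin n) (Fin n) k[X])
    (hM : M.det ≠ 0) :
    ∃ (U : Matrix (Fin n) (Fin n) k[X]) (ν : Fin n → ℕ), IsUnit U.det ∧
      (∀ i j, ((U * M) i j).natDegree ≤ ν i) ∧ ∑ i, ν i ≤ M.det.natDegree ∧ Monotone ν := by
  classical
  let P : ℕ → Prop := fun s => ∃ (U : Matrix (Fin n) (Fin n) k[X]) (ν : Fin n → ℕ),
    IsUnit U.det ∧ (∀ i j, ((U * M) i j).natDegree ≤ ν i) ∧ ∑ i, ν i = s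
  have hP : ∃ s, P s := by
    refine ⟨_, 1, fun i => Finset.univ.sup fun j =>
      (((1 : Matrix (Fin n) (Fin n) k[X]) * M) i j).natDegree, by simp, fun i j => ?_, rfl⟩
    exact Finset.le_sup (f := fun j => (((1 : Matrix (Fin n) (Fin n) k[X]) * M) i j).natDegree)
      (Finset.mem_univ j)
  obtain ⟨U, ν, hU, hn, hs⟩ := Nat.find_spec hP
  have hmin : ∀ t, P t → Nat.find hP ≤ t := fun t ht => Nat.find_min' hP ht
  -- the minimal value is at most the degree of the determinant
  have hle : ∑ i, ν i ≤ M.det.natDegree := by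
    by_contra hlt
    push Not at hlt
    obtain ⟨u, hu, hCu⟩ := Polynomial.isUnit_iff.1 hU
    have hdet : (U * M).det.coeff (∑ i, ν i) = 0 := by
      rw [Matrix.det_mul, ← hCu, coeff_C_mul, coeff_eq_zero_of_natDegree_lt hlt, mul_zero]
    rw [coeff_detn (U * M) ν hn] at hdet
    obtain ⟨c, hc0, hc⟩ := Matrix.exists_vecMul_eq_zero_iff.2 hdet
    -- choose i₀
    have hne : (Finset.univ.filter fun i => c i ≠ 0).Nonempty := by
      by_contra hh
      rw [Finset.not_nonempty_iff_eq_empty, Finset.filter_eq_empty_iff] at hh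
      exact hc0 (funext fun i => by simpa using hh (Finset.mem_univ i))
    obtain ⟨i₀, hi₀, hmax⟩ := Finset.exists_max_image _ ν hne
    have hci₀ : c i₀ ≠ 0 := (Finset.mem_filter.1 hi₀).2
    have hmx : ∀ i, c i ≠ 0 → ν i ≤ ν i₀ := fun i hi =>
      hmax i (Finset.mem_filter.2 ⟨Finset.mem_univ i, hi⟩)
    set v : Fin n → k[X] := fun i => C (c i) * X ^ (ν i₀ - ν i) with hv
    set V : Matrix (Fin n) (Fin n) k[X] := (1 : Matrix (Fin n) (Fin n) k[X]).updateRow i₀ v with hV
    have hVdet : V.det = C (c i₀) := by rw [hV, det_upd]; simp [hv]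
    have hVU : IsUnit (V * U).det := by
      rw [Matrix.det_mul]
      refine IsUnit.mul ?_ hU
      rw [hVdet]
      exact Polynomial.isUnit_C.2 (isUnit_iff_ne_zero.2 hci₀)
    have hrow : ∀ j, (V * U * M) i₀ j = ∑ i, v i * (U * M) i j := by
      intro j
      rw [Matrix.mul_assoc, Matrix.mul_apply]
      refine Finset.sum_congr rfl fun i _ => ?_
      rw [hV, Matrix.updateRow_self]
    have hrow' : ∀ i, i ≠ i₀ → ∀ j, (V * U * M) i j = (U * M) i j := by
      intro i hi j
      rw [Matrix.mul_assoc, Matrix.mul_apply, hV]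
      rw [Finset.sum_eq_single i]
      · rw [Matrix.updateRow_ne hi, Matrix.one_apply_eq, one_mul]
      · intro b _ hb
        rw [Matrix.updateRow_ne hi, Matrix.one_apply_ne (Ne.symm hb), zero_mul]
      · intro h
        exact absurd (Finset.mem_univ i) h
    have hdeg : ∀ j, ((V * U * M) i₀ j).natDegree ≤ ν i₀ := by
      intro j
      rw [hrow]
      refine natDegree_sum_le_of_forall_le _ _ fun i _ => ?_
      by_cases hci : c i = 0
      · simp [hv, hci]
      · have h1 := hmx i hci
        refine (natDegree_mul_le_of_le (m := ν i₀ - ν i) (n := ν i) ?_ (hn i j)).trans (by omega)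
        simp only [hv]
        exact natDegree_C_mul_X_pow_le _ _
    have hco : ∀ j, ((V * U * M) i₀ j).coeff (ν i₀) = 0 := by
      intro j
      rw [hrow, finsetSum_coeff]
      have h1 : (Matrix.vecMul c (Matrix.of fun i j => ((U * M) i j).coeff (ν i))) j = 0 := by
        rw [hc]; rfl
      rw [Matrix.vecMul, dotProduct] at h1
      rw [← h1]
      refine Finset.sum_congr rfl fun i _ => ?_
      by_cases hci : c i = 0
      · simp [hv, hci]
      · have h2 := hmx i hci
        simp only [hv, Matrix.of_apply]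
        rw [mul_assoc, coeff_C_mul]
        congr 1
        obtain ⟨d, hd⟩ := Nat.exists_eq_add_of_le h2
        rw [hd, Nat.add_sub_cancel_left]
        exact coeff_X_pow_mul _ _ _
    rcases Nat.eq_zero_or_pos (ν i₀) with h0 | hpos
    · have hz : ∀ j, (V * U * M) i₀ j = 0 := by
        intro j
        have h1 := hdeg j
        rw [h0] at h1
        rw [eq_C_of_natDegree_le_zero h1]
        have h2 := hco j
        rw [h0] at h2
        rw [h2, C_0]
      have : (V * U * M).det = 0 := Matrix.det_eq_zero_of_row_eq_zero i₀ hz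
      rw [Matrix.det_mul] at this
      rcases mul_eq_zero.1 this with h | h
      · exact hVU.ne_zero h
      · exact hM h
    · have hlt' : ∀ j, ((V * U * M) i₀ j).natDegree ≤ ν i₀ - 1 := by
        intro j
        rw [natDegree_le_iff_coeff_eq_zero]
        intro N hN
        rcases (show ν i₀ ≤ N by omega).eq_or_lt with h | h
        · rw [← h]; exact hco j
        · exact coeff_eq_zero_of_natDegree_lt (lt_of_le_of_lt (hdeg j) h)
      have hPt : P (∑ i, (Function.update ν i₀ (ν i₀ - 1)) i) := by
        refine ⟨V * U, Function.update ν i₀ (ν i₀ - 1), hVU, fun i j => ?_, rfl⟩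
        by_cases hi : i = i₀
        · subst hi
          rw [Function.update_self]
          exact hlt' j
        · rw [Function.update_of_ne hi, hrow' i hi]
          exact hn i j
      have h1 := hmin _ hPt
      rw [← hs] at h1
      have h2 : ∑ i, (Function.update ν i₀ (ν i₀ - 1)) i < ∑ i, ν i := by
        refine Finset.sum_lt_sum (fun i _ => ?_) ⟨i₀, Finset.mem_univ _, ?_⟩
        · by_cases hi : i = i₀
          · subst hi
            rw [Function.update_self]
            omega
          · rw [Function.update_of_ne hi]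
        · rw [Function.update_self]
          omega
      omega
  -- sort the rows
  refine ⟨U.submatrix (Tuple.sort ν) id, ν ∘ Tuple.sort ν, ?_, fun i j => ?_, ?_,
    Tuple.monotone_sort ν⟩
  · rw [Matrix.det_permute]
    refine IsUnit.mul ?_ hU
    rcases Int.units_eq_one_or (Equiv.Perm.sign (Tuple.sort ν)) with h | h <;> simp [h]
  · have : (U.submatrix (Tuple.sort ν) id * M) i j = (U * M) (Tuple.sort ν i) j := by
      simp [Matrix.mul_apply]
    rw [this]
    exact hn _ j
  · have h1 := Equiv.sum_comp (Tuple.sort ν) ν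
    simp only [Function.comp_apply]
    omega

end Pool.Agent.HYP
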