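import Pool.Agent.Lib.HYP.L.Det
import Pool.Agent.Lib.HYP.B.Norm
import Pool.Agent.Lib.HYP.B.Row

/-!
Module B.Base: a good basis with controlled degrees.

PROOF. (The case of the cubic algebra is `reduced` in `Pool/Agent/Lib/BSDP/B/Red.lean`.) Write
`n = 2 g + 1`, `norm c = a ^ 2`, `a ≠ 0`, so `c ≠ 0`. By `exists_norm_deg` `WLE m hm c N` and
`intDegree (norm c) = n N`; this is `2 * intDegree a`, and `n` is odd, so `N = 2 κ`. Let
`b₀, G1₀, G2₀` be a good basis, `P = coord hm b₀` (`Def.lean`). By `gram1_det` (`L.Det`)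
`cc (det G1₀) = (-1) ^ g (det P) ^ 2 norm c` and `det G1₀` is a nonzero constant, of degree `0`; so
`det P ≠ 0` and `intDegree (det P) = - n κ`. Let `d : k[X]`, `d ≠ 0`, with all entries of
`cc d * P` polynomials (`IsLocalization.exist_integer_multiples_of_finite`), and
`M : Matrix _ _ k[X]` with `cc (M i j) = cc d * P i j * X ^ (2 m j)`. Then
`cc (det M) = cc d ^ n * det P * X ^ (2 m (∑ j))`, `∑_{j < n} j = g n`, so
`natDegree (det M) = n deg d - n κ + 2 m g n` (in `ℤ`), `det M ≠ 0`. Take `U, ν₀` from `row_reduce`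
and `b i = ∑ j, cc (U i j) • b₀ j`; the coordinates of `b` are `U.map cc * P` (`coord_chb`) and
`DegLE (coord hm b i j) (ν₀ i - deg d - 2 m j)`, that is `WLE m hm (b i) (ν₀ i - deg d)` (the
coefficients with `j ≥ n` are `0`). Put `ν i = ν₀ i - deg d + κ - 2 m g`. Then `∑ ν ≤ 0`, `ν` is
monotone. `c * b i * b j` has weighted degree `≤ 2 κ + (ν i - κ + 2 m g) + (ν j - κ + 2 m g)`
(`WLE.mul`), so by `WLE.tau` `DegLE (gram1 hm c b i j) (ν i + ν j)`, and the same for `gram2` with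
`2 m` more (`WLE.root`). The matrices `G1 = U G1₀ Uᵀ`, `G2 = U G2₀ Uᵀ` show that `b` is good
(`gram1_chb`, `gram2_chb` of `L.Gram`; `Matrix.map_mul`, `det U` is a unit).
-/

set_option autoImplicit false

open Polynomial

namespace Pool.Agent.HYP

open Pool.Agent.BSDP

variable {k : Type} [Field k]

private theorem bs_map_det {n : ℕ} (U : Matrix (Fin n) (Fin n) k[X]) :
    (U.map (algebraMap k[X] (RatFunc k))).det = cc U.det :=
  ((algebraMap k[X] (RatFunc k)).map_det U).symm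

/-- a common denominator -/
private theorem bs_denom {n : ℕ} (P : Matrix (Fin n) (Fin n) (RatFunc k)) :
    ∃ g : k[X], g ≠ 0 ∧ ∃ Q : Matrix (Fin n) (Fin n) k[X], ∀ i j, cc (Q i j) = cc g * P i j := by
  obtain ⟨g, hg⟩ := IsLocalization.exist_integer_multiples_of_finite (nonZeroDivisors k[X])
    (fun x : Fin n × Fin n => P x.1 x.2)
  refine ⟨g, nonZeroDivisors.coe_ne_zero g, Matrix.of fun i j => (hg (i, j)).choose, fun i j => ?_⟩
  have h := (hg (i, j)).choose_spec
  have h2 : (g : k[X]) • P i j = cc (g : k[X]) * P i j := Algebra.smul_def _ _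
  exact h.trans h2

private theorem bs_cc_ne {p : k[X]} (hp : p ≠ 0) : (cc p : RatFunc k) ≠ 0 := fun h =>
  hp ((map_eq_zero_iff _ (IsFractionRing.injective k[X] (RatFunc k))).1 h)

private theorem bs_deg_pow {x : RatFunc k} (hx : x ≠ 0) (n : ℕ) :
    (x ^ n).intDegree = n * x.intDegree := by
  induction n with
  | zero => simp
  | succ n ih =>
    rw [pow_succ, RatFunc.intDegree_mul (pow_ne_zero _ hx) hx, ih]
    push_cast
    ring

private theorem bs_sum_fin (g : ℕ) : ∑ j : Fin (2 * g + 1), (j : ℕ) = g * (2 * g + 1) := by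
  have h : ∑ j : Fin (2 * g + 1), (j : ℕ) = ∑ j ∈ Finset.range (2 * g + 1), j :=
    Fin.sum_univ_eq_sum_range (fun j => j) (2 * g + 1)
  have h2 := Finset.sum_range_id_mul_two (2 * g + 1)
  rw [h]
  have h3 : (2 * g + 1) * (2 * g + 1 - 1) = 2 * (g * (2 * g + 1)) := by
    rw [Nat.add_sub_cancel]; ring
  omega

theorem base {g m : ℕ} {φ : k[X]} {f : k[X][X]} (hφ : LeadForm g φ) (hf : Fam g m φ f)
    (hm : (fK f).Monic) (c : AdjoinRoot (fK f)) (hc : InU g hm c) :
    ∃ (ν : Fin (2 * g + 1) → ℤ) (b : Fin (2 * g + 1) → AdjoinRoot (fK f))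
      (G1 G2 : Matrix (Fin (2 * g + 1)) (Fin (2 * g + 1)) k[X]),
      Monotone ν ∧ ∑ i, ν i ≤ 0 ∧ Good hm c b G1 G2 ∧
      (∀ i j, DegLE (cc (G1 i j)) (ν i + ν j)) ∧
      (∀ i j, DegLE (cc (G2 i j)) (2 * m + ν i + ν j)) := by
  obtain ⟨⟨a, ha, hN⟩, b₀, G1₀, G2₀, hb₀⟩ := hc
  have hfd : (fK f).natDegree = 2 * g + 1 := by
    rw [hf.monic.natDegree_map, hf.deg]
  have hc0 : c ≠ 0 := by
    rintro rfl
    have : Nontrivial (AdjoinRoot (fK f)) := by
      apply AdjoinRoot.nontrivial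
      rw [degree_eq_natDegree hm.ne_zero, hfd]
      exact_mod_cast Nat.succ_ne_zero (2 * g)
    have := hm.free_adjoinRoot
    have := hm.finite_adjoinRoot
    rw [Algebra.norm_zero] at hN
    exact (pow_ne_zero 2 ha) hN.symm
  obtain ⟨N, hWN, hN0, hNdeg⟩ := exists_norm_deg hφ hf hm c hc0
  obtain ⟨κ, hκ⟩ : ∃ κ : ℤ, N = 2 * κ := by
    rw [hN, bs_deg_pow ha] at hNdeg
    push_cast at hNdeg
    have h1 : (2 : ℤ) ∣ (2 * g + 1) * N := ⟨a.intDegree, by rw [← hNdeg]⟩
    have h2 : (2 : ℤ) ∣ N := by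
      rcases Int.even_or_odd N with h | h
      · exact h.two_dvd
      · exfalso
        have h3 : Odd ((2 * (g : ℤ) + 1) * N) := Odd.mul ⟨g, by ring⟩ h
        exact (Int.not_even_iff_odd.2 h3) (even_iff_two_dvd.2 h1)
    exact h2
  subst hκ
  -- the degree of the determinant of the coordinates
  set P := coord hm b₀ with hP
  have hG1 := gram1_det hm hfd c b₀
  rw [hb₀.g1, bs_map_det, ← hP] at hG1
  have hu0 : (cc G1₀.det : RatFunc k) ≠ 0 := bs_cc_ne hb₀.unit.ne_zero
  have hP0 : P.det ≠ 0 := by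
    intro h
    rw [h] at hG1
    apply hu0
    rw [hG1]
    ring
  have hPdeg : P.det.intDegree = -((2 * g + 1) * κ) := by
    have h1 := congrArg RatFunc.intDegree hG1
    have h2 : (cc G1₀.det : RatFunc k).intDegree = 0 := by
      rw [RatFunc.intDegree_polynomial, natDegree_eq_zero_of_isUnit hb₀.unit]
      rfl
    have h3 : ((-1 : RatFunc k) ^ g).intDegree = 0 := by
      rw [bs_deg_pow (by norm_num), RatFunc.intDegree_neg, RatFunc.intDegree_one, mul_zero]
    have h4 : ((-1 : RatFunc k) ^ g) ≠ 0 := pow_ne_zero _ (by norm_num)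
    rw [h2, RatFunc.intDegree_mul (mul_ne_zero h4 (pow_ne_zero 2 hP0)) hN0,
      RatFunc.intDegree_mul h4 (pow_ne_zero 2 hP0), h3, bs_deg_pow hP0, hNdeg] at h1
    push_cast at h1
    linarith
  obtain ⟨d, hd, Q, hQ⟩ := bs_denom P
  have hcd : (cc d : RatFunc k) ≠ 0 := bs_cc_ne hd
  have hX0 : (X : k[X]) ≠ 0 := X_ne_zero
  have hcX : (cc X : RatFunc k) ≠ 0 := bs_cc_ne hX0
  let M : Matrix (Fin (2 * g + 1)) (Fin (2 * g + 1)) k[X] :=
    Matrix.of fun i j => Q i j * X ^ (2 * m * (j : ℕ))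
  have hM : ∀ i j, cc (M i j) = cc d * cc X ^ (2 * m * (j : ℕ)) * P i j := by
    intro i j
    show cc (Q i j * X ^ (2 * m * (j : ℕ))) = _
    rw [cc, map_mul, map_pow]
    have := hQ i j
    rw [cc] at this
    rw [this]
    ring
  have hMdet : cc M.det = cc d ^ (2 * g + 1) * cc X ^ (2 * m * (g * (2 * g + 1))) * P.det := by
    rw [← bs_map_det]
    have h1 : M.map (algebraMap k[X] (RatFunc k)) = (cc d : RatFunc k) • (P *
        Matrix.diagonal fun j : Fin (2 * g + 1) => (cc X : RatFunc k) ^ (2 * m * (j : ℕ))) := by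
      ext i j
      rw [Matrix.map_apply, Matrix.smul_apply, Matrix.mul_diagonal, smul_eq_mul]
      refine (hM i j).trans ?_
      ring
    rw [h1, Matrix.det_smul, Matrix.det_mul, Matrix.det_diagonal, Fintype.card_fin,
      Finset.prod_pow_eq_pow_sum, ← Finset.mul_sum, bs_sum_fin]
    ring
  have hcM0 : cc M.det ≠ 0 := by
    rw [hMdet]
    exact mul_ne_zero (mul_ne_zero (pow_ne_zero _ hcd) (pow_ne_zero _ hcX)) hP0
  have hM0 : M.det ≠ 0 := by
    intro h
    apply hcM0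
    rw [h, cc, map_zero]
  have hcXd : (cc (X : k[X]) : RatFunc k).intDegree = 1 := by
    rw [RatFunc.intDegree_polynomial, natDegree_X]; rfl
  have hcdd : (cc d : RatFunc k).intDegree = d.natDegree := RatFunc.intDegree_polynomial
  have hMdeg : (M.det.natDegree : ℤ) =
      (2 * g + 1) * d.natDegree - (2 * g + 1) * κ + 2 * m * (g * (2 * g + 1)) := by
    have h1 : (cc M.det : RatFunc k).intDegree = M.det.natDegree := RatFunc.intDegree_polynomial
    rw [← h1, hMdet, RatFunc.intDegree_mul (mul_ne_zero (pow_ne_zero _ hcd) (pow_ne_zero _ hcX)) hP0,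
      RatFunc.intDegree_mul (pow_ne_zero _ hcd) (pow_ne_zero _ hcX), bs_deg_pow hcd,
      bs_deg_pow hcX, hPdeg, hcXd, hcdd]
    push_cast
    ring
  obtain ⟨U, ν₀, hU, hUn, hsum, hmono⟩ := row_reduce M hM0
  set b : Fin (2 * g + 1) → AdjoinRoot (fK f) :=
    fun i => ∑ j, (U.map (algebraMap k[X] (RatFunc k))) i j • b₀ j with hb
  have hcb : coord hm b = U.map (algebraMap k[X] (RatFunc k)) * P := coord_chb hm _ b₀
  have hce : ∀ i j, cc ((U * M) i j) = cc d * cc X ^ (2 * m * (j : ℕ)) * coord hm b i j := by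
    intro i j
    rw [hcb, Matrix.mul_apply, Matrix.mul_apply, cc, map_sum, Finset.mul_sum]
    refine Finset.sum_congr rfl fun l _ => ?_
    rw [map_mul, Matrix.map_apply]
    refine (congrArg (fun y => (algebraMap k[X] (RatFunc k)) (U i l) * y) (hM l j)).trans ?_
    ring
  have hde : ∀ i j, DegLE (coord hm b i j) (ν₀ i - d.natDegree - 2 * m * (j : ℕ)) := by
    intro i j
    have hne : (cc d * cc X ^ (2 * m * (j : ℕ)) : RatFunc k) ≠ 0 :=
      mul_ne_zero hcd (pow_ne_zero _ hcX)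
    rw [← DegLE.mul_iff hne, ← hce, RatFunc.intDegree_mul hcd (pow_ne_zero _ hcX), bs_deg_pow hcX,
      hcXd, hcdd]
    have h1 := (DegLE.cc_nat ((U * M) i j) (ν₀ i)).2 (hUn i j)
    refine h1.mono (le_of_eq ?_)
    push_cast
    ring
  have hW : ∀ i, WLE m hm (b i) (ν₀ i - d.natDegree) := by
    intro i j
    by_cases hj : j < 2 * g + 1
    · exact hde i ⟨j, hj⟩
    · left
      obtain ⟨q, hq⟩ := AdjoinRoot.mk_surjective (b i)
      rw [← hq, AdjoinRoot.modByMonicHom_mk]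
      refine coeff_eq_zero_of_degree_lt ((degree_modByMonic_lt q hm).trans_le ?_)
      rw [degree_eq_natDegree hm.ne_zero, hfd]
      exact_mod_cast (not_lt.1 hj)
  have hg1 : gram1 hm c b = (U * G1₀ * U.transpose).map (algebraMap k[X] (RatFunc k)) := by
    rw [hb, gram1_chb, hb₀.g1, Matrix.map_mul, Matrix.map_mul, Matrix.transpose_map]
  have hg2 : gram2 hm c b = (U * G2₀ * U.transpose).map (algebraMap k[X] (RatFunc k)) := by
    rw [hb, gram2_chb, hb₀.g2, Matrix.map_mul, Matrix.map_mul, Matrix.transpose_map]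
  refine ⟨fun i => ν₀ i - d.natDegree + κ - 2 * m * g, b, U * G1₀ * U.transpose,
    U * G2₀ * U.transpose, ?_, ?_, ⟨hg1, hg2, ?_⟩, ?_, ?_⟩
  · intro i j hij
    have := hmono hij
    have h2 : (ν₀ i : ℤ) ≤ ν₀ j := by exact_mod_cast this
    show (ν₀ i : ℤ) - d.natDegree + κ - 2 * m * g ≤ ν₀ j - d.natDegree + κ - 2 * m * g
    linarith
  · have h1 : (∑ i, (ν₀ i : ℤ)) ≤
        (2 * g + 1) * d.natDegree - (2 * g + 1) * κ + 2 * m * (g * (2 * g + 1)) := by
      rw [← hMdeg]; exact_mod_cast hsum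
    have h2 : ∑ i : Fin (2 * g + 1), ((ν₀ i : ℤ) - d.natDegree + κ - 2 * m * g) =
        (∑ i, (ν₀ i : ℤ)) + (2 * g + 1) * (-d.natDegree + κ - 2 * m * g) := by
      have h3 : ∀ i : Fin (2 * g + 1), ((ν₀ i : ℤ) - d.natDegree + κ - 2 * m * g) =
          (ν₀ i : ℤ) + (-d.natDegree + κ - 2 * m * g) := fun i => by ring
      rw [Finset.sum_congr rfl fun i _ => h3 i, Finset.sum_add_distrib, Finset.sum_const,
        Finset.card_univ, Fintype.card_fin, nsmul_eq_mul]
      push_cast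
      ring
    rw [h2]
    nlinarith [h1]
  · rw [Matrix.det_mul, Matrix.det_mul, Matrix.det_transpose]
    exact (hU.mul hb₀.unit).mul hU
  · intro i j
    have h1 := congrFun (congrFun hg1 i) j
    rw [Matrix.map_apply] at h1
    rw [cc, ← h1]
    have h2 := WLE.tau hf (WLE.mul hf (WLE.mul hf hWN (hW i)) (hW j))
    refine DegLE.mono h2 (le_of_eq ?_)
    ring
  · intro i j
    have h1 := congrFun (congrFun hg2 i) j
    rw [Matrix.map_apply] at h1
    rw [cc, ← h1]
    have h2 := WLE.tau hf (WLE.mul hf (WLE.mul hf (WLE.mul hf (WLE.root hf hm) hWN) (hW i)) (hW j))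
    refine DegLE.mono h2 (le_of_eq ?_)
    ring

end Pool.Agent.HYP
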