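import Pool.Agent.Lib.HYP.Ifc
import Pool.Agent.Lib.BSDP.A.Deg

/-!
Module B.Deg: the weighted degree at infinity on `L = K[θ]`, `K = k(t)`, `θ` of degree `2 m`:
`WLE m hF l N` says that the coefficient of `θ ^ i` of `l` has degree at most `N - 2 m i`.
`cc : k[X] → RatFunc k` and `DegLE x n : x = 0 ∨ x.intDegree ≤ n` are from `BSDP` (`A.Deg` has
`DegLE.add, mul, neg, sub, mono, cc_nat, cc_iff, eq_zero`, …).

PROOFS. The coefficients of `l` are those of `AdjoinRoot.modByMonicHom hF l`, a linear map;
`AdjoinRoot.modByMonicHom_mk : modByMonicHom hF (mk F P) = P %ₘ F`, and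
`AdjoinRoot.mk_leftInverse hF` gives `mk F (modByMonicHom hF l) = l`.
`WLE.mk`: `P %ₘ F` for a polynomial `P` with `DegLE (P.coeff i) (N - 2 m i)` for all `i`. Strong
induction on `P.natDegree`: if `P.natDegree < n` then `P %ₘ F = P`. Otherwise let `d = P.natDegree`,
`P' = P - C (P.coeff d) * X ^ (d - n) * F`; `P' %ₘ F = P %ₘ F`
(`Polynomial.modByMonic_eq_of_dvd_sub`), `P'` has smaller degree (or is `0`), and its coefficients
satisfy the same bounds: `F.coeff j = cc (f.coeff j)` has degree `≤ 2 m (n - j)` for `j ≤ n` and is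
`0` for `j > n`, and `(C a * X ^ e * F).coeff i = a * F.coeff (i - e)` if `e ≤ i`, else `0`.
`WLE.mul`: `l l' = mk (P * P')` with `P, P'` the representatives of degree `< n`;
`(P * P').coeff i` is the sum of `P.coeff a * P'.coeff b`, `a + b = i`, of degrees
`≤ N - 2 m a + N' - 2 m b`. `WLE.root`: `root F = mk F X`. `WLE.tau`: by definition
`tau hF l = (modByMonicHom hF l).coeff (F.natDegree - 1)`. `WLE.exists`: finitely many coefficients.
-/

set_option autoImplicit false

open Polynomial

namespace Pool.Agent.HYP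

open Pool.Agent.BSDP

variable {k : Type} [Field k]

/-- The coefficient of `θ ^ i` in `l` has degree at most `N - 2 m i`. -/
def WLE (m : ℕ) {F : (RatFunc k)[X]} (hF : F.Monic) (l : AdjoinRoot F) (N : ℤ) : Prop :=
  ∀ i : ℕ, DegLE ((AdjoinRoot.modByMonicHom hF l).coeff i) (N - 2 * m * i)

section basic

variable {m : ℕ} {F : (RatFunc k)[X]} {hF : F.Monic}

theorem WLE.zero (N : ℤ) : WLE m hF 0 N := by
  intro i
  rw [map_zero, coeff_zero]
  exact DegLE.zero _

theorem WLE.mono {l : AdjoinRoot F} {N N' : ℤ} (h : WLE m hF l N) (hN : N ≤ N') :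
    WLE m hF l N' := by
  intro i
  exact (h i).mono (by linarith)

theorem WLE.add {l l' : AdjoinRoot F} {N : ℤ} (h : WLE m hF l N) (h' : WLE m hF l' N) :
    WLE m hF (l + l') N := by
  intro i
  rw [map_add, coeff_add]
  exact (h i).add (h' i)

theorem WLE.sum {ι : Type} (s : Finset ι) (l : ι → AdjoinRoot F) {N : ℤ}
    (h : ∀ i ∈ s, WLE m hF (l i) N) : WLE m hF (∑ i ∈ s, l i) N := by
  classical
  induction s using Finset.induction_on with
  | empty =>
    rw [Finset.sum_empty]
    exact WLE.zero N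
  | insert a s ha ih =>
    rw [Finset.sum_insert ha]
    exact (h a (Finset.mem_insert_self a s)).add
      (ih fun i hi => h i (Finset.mem_insert_of_mem hi))

theorem WLE.smul {l : AdjoinRoot F} {x : RatFunc k} {a N : ℤ} (hx : DegLE x a)
    (h : WLE m hF l N) : WLE m hF (x • l) (a + N) := by
  intro i
  rw [map_smul, coeff_smul, smul_eq_mul]
  exact (hx.mul (h i)).mono (by linarith)

private theorem exists_poly (m : ℕ) (P : (RatFunc k)[X]) :
    ∃ N : ℤ, ∀ i : ℕ, DegLE (P.coeff i) (N - 2 * m * i) := by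
  induction P using Polynomial.induction_on' with
  | add p q hp hq =>
    obtain ⟨N, hN⟩ := hp
    obtain ⟨N', hN'⟩ := hq
    refine ⟨max N N', fun i => ?_⟩
    rw [coeff_add]
    exact ((hN i).mono (by linarith [le_max_left N N'])).add
      ((hN' i).mono (by linarith [le_max_right N N']))
  | monomial n a =>
    refine ⟨a.intDegree + 2 * m * n, fun i => ?_⟩
    rw [coeff_monomial]
    split_ifs with h
    · subst h
      exact Or.inr (by linarith)
    · exact DegLE.zero _

theorem WLE.exists (l : AdjoinRoot F) : ∃ N : ℤ, WLE m hF l N :=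
  exists_poly m _

end basic

section fam

variable {g m : ℕ} {φ : k[X]} {f : k[X][X]}

private theorem fam_coeff (hf : Fam g m φ f) (j : ℕ) :
    DegLE ((fK f).coeff j) (2 * m * (2 * g + 1) - 2 * m * j) := by
  rw [coeff_map]
  rcases Nat.lt_or_ge (2 * g + 1) j with h | h
  · rw [coeff_eq_zero_of_natDegree_lt (by rw [hf.deg]; exact h), map_zero]
    exact DegLE.zero _
  · have h1 := (DegLE.cc_nat (f.coeff j) (2 * m * (2 * g + 1 - j))).2 (hf.degc j h)
    refine DegLE.mono h1 (le_of_eq ?_)
    push_cast [Nat.cast_sub h]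
    ring

private theorem fam_deg (hf : Fam g m φ f) : (fK f).natDegree = 2 * g + 1 := by
  rw [hf.monic.natDegree_map, hf.deg]

private theorem mod_aux (hf : Fam g m φ f) (hm : (fK f).Monic) {N : ℤ} :
    ∀ (d : ℕ) (P : (RatFunc k)[X]), P.natDegree ≤ d →
      (∀ i : ℕ, DegLE (P.coeff i) (N - 2 * m * i)) →
      ∀ i : ℕ, DegLE ((P %ₘ fK f).coeff i) (N - 2 * m * i) := by
  intro d
  induction d with
  | zero =>
    intro P hP h
    have h1 : P %ₘ fK f = P := by
      refine (modByMonic_eq_self_iff hm).2 ?_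
      rw [degree_eq_natDegree hm.ne_zero, fam_deg hf]
      refine lt_of_le_of_lt (degree_le_of_natDegree_le hP) ?_
      exact_mod_cast Nat.succ_pos _
    rw [h1]
    exact h
  | succ d ih =>
    intro P hP h
    by_cases hlt : P.degree < (fK f).degree
    · rw [(modByMonic_eq_self_iff hm).2 hlt]
      exact h
    · have hP0 : P ≠ 0 := by
        rintro rfl
        rw [degree_zero] at hlt
        exact hlt (bot_lt_iff_ne_bot.2 (by rw [Ne, degree_eq_bot]; exact hm.ne_zero))
      have hle : (fK f).degree ≤ P.degree := not_lt.1 hlt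
      have hlen : (fK f).natDegree ≤ P.natDegree := natDegree_le_natDegree hle
      have hw := Polynomial.div_wf_lemma ⟨hle, hP0⟩ hm
      set e := P.natDegree - (fK f).natDegree with he
      set P' := P - fK f * (C P.leadingCoeff * X ^ e) with hP'
      have h1 : P %ₘ fK f = P' %ₘ fK f := by
        refine modByMonic_eq_of_dvd_sub hm ?_
        rw [hP', sub_sub_cancel]
        exact dvd_mul_right _ _
      rw [h1]
      refine ih P' ?_ ?_
      · by_cases h0 : P' = 0
        · rw [h0, natDegree_zero]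
          exact Nat.zero_le _
        · have := natDegree_lt_natDegree h0 hw
          omega
      · intro i
        rw [hP', coeff_sub]
        refine (h i).sub ?_
        rw [← mul_assoc, coeff_mul_X_pow', coeff_mul_C]
        split_ifs with hi
        · have h2 := (fam_coeff hf (i - e)).mul (h P.natDegree)
          refine DegLE.mono h2 (le_of_eq ?_)
          rw [fam_deg hf] at he hlen
          have h3 : (e : ℤ) = (P.natDegree : ℤ) - (2 * g + 1) := by
            rw [he, Nat.cast_sub hlen]
            push_cast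
            ring
          rw [Nat.cast_sub hi, h3]
          ring
        · exact DegLE.zero _

theorem WLE.mk (hf : Fam g m φ f) (hm : (fK f).Monic) (P : (RatFunc k)[X]) {N : ℤ}
    (h : ∀ i : ℕ, DegLE (P.coeff i) (N - 2 * m * i)) : WLE m hm (AdjoinRoot.mk _ P) N := by
  intro i
  rw [AdjoinRoot.modByMonicHom_mk]
  exact mod_aux hf hm _ P le_rfl h i

private theorem degLE_sum {ι : Type} (s : Finset ι) (x : ι → RatFunc k) {N : ℤ}
    (h : ∀ i ∈ s, DegLE (x i) N) : DegLE (∑ i ∈ s, x i) N := by
  classical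
  induction s using Finset.induction_on with
  | empty =>
    rw [Finset.sum_empty]
    exact DegLE.zero N
  | insert a s ha ih =>
    rw [Finset.sum_insert ha]
    exact (h a (Finset.mem_insert_self a s)).add
      (ih fun i hi => h i (Finset.mem_insert_of_mem hi))

theorem WLE.mul (hf : Fam g m φ f) {hm : (fK f).Monic} {l l' : AdjoinRoot (fK f)} {N N' : ℤ}
    (h : WLE m hm l N) (h' : WLE m hm l' N') : WLE m hm (l * l') (N + N') := by
  have h1 : l * l' = AdjoinRoot.mk (fK f)
      (AdjoinRoot.modByMonicHom hm l * AdjoinRoot.modByMonicHom hm l') := by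
    rw [map_mul, AdjoinRoot.mk_leftInverse hm l, AdjoinRoot.mk_leftInverse hm l']
  rw [h1]
  refine WLE.mk hf hm _ fun i => ?_
  rw [coeff_mul]
  refine degLE_sum _ _ fun x hx => ?_
  rw [Finset.HasAntidiagonal.mem_antidiagonal] at hx
  refine ((h x.1).mul (h' x.2)).mono (le_of_eq ?_)
  rw [← hx]
  push_cast
  ring

theorem WLE.root (hf : Fam g m φ f) (hm : (fK f).Monic) :
    WLE m hm (AdjoinRoot.root (fK f)) (2 * m) := by
  rw [← AdjoinRoot.mk_X]
  refine WLE.mk hf hm _ fun i => ?_
  rw [coeff_X]
  split_ifs with h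
  · rw [← h]
    have h1 := DegLE.const (1 : k)
    rw [C_1, cc, map_one] at h1
    exact h1.mono (by push_cast; linarith)
  · exact DegLE.zero _

theorem WLE.tau (hf : Fam g m φ f) {hm : (fK f).Monic} {l : AdjoinRoot (fK f)} {N : ℤ}
    (h : WLE m hm l N) : DegLE (tau hm l) (N - 4 * m * g) := by
  have h1 : Pool.Agent.HYP.tau hm l = (AdjoinRoot.modByMonicHom hm l).coeff ((fK f).natDegree - 1) := rfl
  rw [h1, fam_deg hf, Nat.add_sub_cancel]
  refine (h (2 * g)).mono (le_of_eq ?_)
  push_cast
  ring

/-- `θ ^ j` with a coefficient. -/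
theorem WLE.std (hf : Fam g m φ f) (hm : (fK f).Monic) (j : Fin (2 * g + 1)) {x : RatFunc k}
    {N : ℤ} (hx : DegLE x (N - 2 * m * j)) : WLE m hm (x • std (fK f) (2 * g + 1) j) N := by
  have h1 : x • Pool.Agent.HYP.std (fK f) (2 * g + 1) j = AdjoinRoot.mk (fK f) (C x * X ^ (j : ℕ)) := by
    rw [map_mul, map_pow, AdjoinRoot.mk_X, AdjoinRoot.mk_C, Algebra.smul_def,
      AdjoinRoot.algebraMap_eq]
    rfl
  rw [h1]
  refine WLE.mk hf hm _ fun i => ?_
  rw [coeff_C_mul, coeff_X_pow]
  split_ifs with h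
  · rw [h, mul_one]
    exact hx
  · rw [mul_zero]
    exact DegLE.zero _

end fam

end Pool.Agent.HYP
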