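import Pool.Agent.Lib.HYP.B.Base
import Pool.Agent.Lib.HYP.B.Blk
import Pool.Agent.Lib.HYP.B.Iso

/-!
Module B.Red: reduced good bases.

PROOF. Take `ν, b, G1, G2` from `base`. `0 ≤ ν i + ν (rev i)`: otherwise for `i' ≤ i`, `j' ≤ rev i`
one has `ν i' + ν j' < 0`, so `G1 i' j' = 0` (a polynomial of negative degree), and
`det_zero_block` with `a = i + 1`, `b = rev i + 1 = 2 g - i + 1` gives `det G1 = 0`. `types` gives `r`
with `ν = nn g r`. `DegP`: `s1, s2`: Gram matrices are symmetric (`algebraMap` is injective); `d1, d2`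
from `DegLE.cc_iff`; `det`: `det G1 = C v` (a unit), and by `gram1_det`
`cc (C ((-1) ^ g * v)) = (det (coord hm b) * a) ^ 2` with `norm c = a ^ 2`, so `(-1) ^ g * v = u ^ 2`
by `const_sq`. `Typ.zero, mono, top`: from `types`. For `Typ.one`, `Typ.step` let
`S j = span of b i, i < j`; `b` is linearly independent (`linInd_of_gram`), so
`finrank (S j) = j` for `j ≤ 2 g + 1`. The entries of `G1`, `G2` on `S a × S b` vanish if
`2 m + ν (a - 1) + ν (b - 1) < 0` (then also `ν i + ν j < 0`), and then `τ (c l l') = 0`,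
`τ (θ c l l') = 0` for `l ∈ S a`, `l' ∈ S b` (`Submodule.span_induction` twice).
`one`: if `r 1 > m`: `a = b = g`, `ν (g - 1) = - r 1`: `isoA` (with `hu` from `isUnit_of_ne_zero`)
says that `c` is a square, contradiction. `step`: if `r (j + 1) > r j + 2 m`, `1 ≤ j < g`:
`a = g - j`, `b = g + j + 1`, `ν (g - j - 1) = - r (j + 1)`, `ν (g + j) = r j`: `isoB`.
(`h2` is not needed in this module; it is kept for compatibility.)
-/

set_option autoImplicit false

open Polynomial

namespace Pool.Agent.HYP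

open Pool.Agent.BSDP

private theorem rd_vanish {F : Type} [Field F] {f : F[X]} (hf : f.Monic) {n : ℕ}
    (d : AdjoinRoot f) (b : Fin n → AdjoinRoot f) (s t : Set (Fin n))
    (h : ∀ i ∈ s, ∀ j ∈ t, tau hf (d * b i * b j) = 0) :
    ∀ l ∈ Submodule.span F (b '' s), ∀ l' ∈ Submodule.span F (b '' t),
      tau hf (d * l * l') = 0 := by
  intro l hl l' hl'
  induction hl using Submodule.span_induction with
  | mem x hx =>
    obtain ⟨i, hi, rfl⟩ := hx
    induction hl' using Submodule.span_induction with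
    | mem y hy =>
      obtain ⟨j, hj, rfl⟩ := hy
      exact h i hi j hj
    | zero => rw [mul_zero, map_zero]
    | add x y _ _ hx hy => rw [mul_add, map_add, hx, hy, add_zero]
    | smul a x _ hx => rw [mul_smul_comm, map_smul, hx, smul_zero]
  | zero => rw [mul_zero, zero_mul, map_zero]
  | add x y _ _ hx hy => rw [mul_add, add_mul, map_add, hx, hy, add_zero]
  | smul a x _ hx => rw [mul_smul_comm, smul_mul_assoc, map_smul, hx, smul_zero]

private theorem rd_finrank {F V : Type} [Field F] [AddCommGroup V] [Module F V] {n : ℕ}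
    (b : Fin n → V) (hli : LinearIndependent F b) (a : ℕ) (ha : a ≤ n) :
    Module.finrank F (Submodule.span F (b '' {i | (i : ℕ) < a})) = a := by
  have h1 : LinearIndependent F (fun i : Fin a => b (Fin.castLE ha i)) :=
    hli.comp _ (Fin.castLE_injective ha)
  have h2 : b '' {i | (i : ℕ) < a} = Set.range (fun i : Fin a => b (Fin.castLE ha i)) := by
    ext x
    constructor
    · rintro ⟨i, hi, rfl⟩
      exact ⟨⟨i, hi⟩, rfl⟩
    · rintro ⟨i, rfl⟩
      exact ⟨Fin.castLE ha i, i.2, rfl⟩
  rw [h2, finrank_span_eq_card h1, Fintype.card_fin]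

private theorem rd_symm {k : Type} [Field k] {n : ℕ}
    {M : Matrix (Fin n) (Fin n) (RatFunc k)} {G : Matrix (Fin n) (Fin n) k[X]}
    (h : M = G.map (algebraMap k[X] (RatFunc k))) (hM : M.transpose = M) : G.transpose = G := by
  ext1 i j
  apply RatFunc.algebraMap_injective k
  have h1 := congrFun (congrFun hM i) j
  rw [h] at h1
  exact h1

theorem reduced {k : Type} [Field k] (h2 : (2 : k) ≠ 0) {g m : ℕ} (hg : 1 ≤ g) {φ : k[X]}
    (hφ : LeadForm g φ) {f : k[X][X]} (hf : Fam g m φ f) (hm : (fK f).Monic)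
    (c : AdjoinRoot (fK f)) (hc : InU g hm c) (hs : ¬ IsSquare c) :
    ∃ (r : ℕ → ℕ) (b : Fin (2 * g + 1) → AdjoinRoot (fK f))
      (G1 G2 : Matrix (Fin (2 * g + 1)) (Fin (2 * g + 1)) k[X]),
      Typ g m r ∧ Good hm c b G1 G2 ∧ DegP g m r G1 G2 := by
  obtain ⟨ν, b, G1, G2, hmono, hsum, hG, hd1, hd2⟩ := base hφ hf hm c hc
  have hdet0 : G1.det ≠ 0 := hG.unit.ne_zero
  have hz1 : ∀ i j, ν i + ν j < 0 → G1 i j = 0 := by
    intro i j hij
    rcases (DegLE.cc_iff _ _).1 (hd1 i j) with h | h
    · exact h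
    · have := Int.natCast_nonneg (G1 i j).natDegree
      omega
  have hz2 : ∀ i j, 2 * m + ν i + ν j < 0 → G2 i j = 0 := by
    intro i j hij
    rcases (DegLE.cc_iff _ _).1 (hd2 i j) with h | h
    · exact h
    · have := Int.natCast_nonneg (G2 i j).natDegree
      omega
  have hpair : ∀ i, 0 ≤ ν i + ν (Fin.rev i) := by
    intro i
    by_contra hcon
    push Not at hcon
    have hrev : ((Fin.rev i : Fin (2 * g + 1)) : ℕ) = 2 * g + 1 - ((i : ℕ) + 1) := Fin.val_rev i
    have hi := i.2
    refine hdet0 (det_zero_block G1 ((i : ℕ) + 1) (((Fin.rev i : Fin (2 * g + 1)) : ℕ) + 1)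
      (by omega) (by omega) (by omega) ?_)
    intro i' j' hi' hj'
    have h1 : ν i' ≤ ν i := hmono (Fin.le_def.2 (by omega))
    have h2' : ν j' ≤ ν (Fin.rev i) := hmono (Fin.le_def.2 (by omega))
    exact hz1 i' j' (by omega)
  obtain ⟨r, hr0, hrm, hrt, hν⟩ := types g ν hmono hsum hpair
  obtain ⟨a, ha, hN⟩ := hc.1
  have hgd : (gram1 hm c b).det = cc G1.det := by
    rw [hG.g1]
    exact ((algebraMap k[X] (RatFunc k)).map_det G1).symm
  have hfd : (fK f).natDegree = 2 * g + 1 := by
    rw [← hf.deg]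
    exact hf.monic.natDegree_map _
  have hli : LinearIndependent (RatFunc k) b := by
    refine linInd_of_gram hm c b ?_
    rw [hgd]
    intro h
    exact hdet0 ((map_eq_zero_iff _ (RatFunc.algebraMap_injective k)).1 h)
  have hc0 : c ≠ 0 := by
    rintro rfl
    exact hs IsSquare.zero
  have hu : ∀ l : AdjoinRoot (fK f), l ≠ 0 → IsUnit l := isUnit_of_ne_zero hφ hf hm
  have ht1 : ∀ i j, G1 i j = 0 → tau hm (c * b i * b j) = 0 := by
    intro i j hij
    have h1 : tau hm (c * b i * b j) = algebraMap k[X] (RatFunc k) (G1 i j) :=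
      congrFun (congrFun hG.g1 i) j
    rw [h1, hij, map_zero]
  have ht2 : ∀ i j, G2 i j = 0 → tau hm (AdjoinRoot.root (fK f) * c * b i * b j) = 0 := by
    intro i j hij
    have h1 : tau hm (AdjoinRoot.root (fK f) * c * b i * b j) =
        algebraMap k[X] (RatFunc k) (G2 i j) := congrFun (congrFun hG.g2 i) j
    rw [h1, hij, map_zero]
  refine ⟨r, b, G1, G2, ⟨hr0, hrm, ?_, ?_, hrt⟩, hG, ⟨?_, ?_, ?_, ?_, ?_⟩⟩
  · -- the first step
    by_contra hcon
    push Not at hcon
    apply hs
    have hb : ∀ i : Fin (2 * g + 1), (i : ℕ) < g → ν i ≤ -(r 1 : ℤ) := by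
      intro i hi
      have h1 : ν i ≤ ν ⟨g - 1, by omega⟩ := hmono (Fin.le_def.2 (by show (i : ℕ) ≤ g - 1; omega))
      have h3 : ν ⟨g - 1, by omega⟩ = -(r 1 : ℤ) := by
        rw [hν]
        show (r (g - 1 - g) : ℤ) - r (g - (g - 1)) = _
        rw [show g - 1 - g = 0 by omega, show g - (g - 1) = 1 by omega, hr0]
        simp
      omega
    refine isoA hm hg hfd hu c hc.1
      (Submodule.span (RatFunc k) (b '' {i | (i : ℕ) < g}))
      (rd_finrank b hli g (by omega)) (rd_vanish hm c b _ _ ?_) (rd_vanish hm _ b _ _ ?_)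
    · intro i hi j hj
      have h1 := hb i hi
      have h3 := hb j hj
      exact ht1 i j (hz1 i j (by omega))
    · intro i hi j hj
      have h1 := hb i hi
      have h3 := hb j hj
      exact ht2 i j (hz2 i j (by omega))
  · -- the other steps
    intro j hj hjg
    by_contra hcon
    push Not at hcon
    have hb : ∀ i : Fin (2 * g + 1), (i : ℕ) < g - j → ν i ≤ -(r (j + 1) : ℤ) := by
      intro i hi
      have h1 : ν i ≤ ν ⟨g - j - 1, by omega⟩ :=
        hmono (Fin.le_def.2 (by show (i : ℕ) ≤ g - j - 1; omega))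
      have h3 : ν ⟨g - j - 1, by omega⟩ = -(r (j + 1) : ℤ) := by
        rw [hν]
        show (r (g - j - 1 - g) : ℤ) - r (g - (g - j - 1)) = _
        rw [show g - j - 1 - g = 0 by omega, show g - (g - j - 1) = j + 1 by omega, hr0]
        simp
      omega
    have hb' : ∀ i : Fin (2 * g + 1), (i : ℕ) < g + j + 1 → ν i ≤ (r j : ℤ) := by
      intro i hi
      have h1 : ν i ≤ ν ⟨g + j, by omega⟩ :=
        hmono (Fin.le_def.2 (by show (i : ℕ) ≤ g + j; omega))
      have h3 : ν ⟨g + j, by omega⟩ = (r j : ℤ) := by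
        rw [hν]
        show (r (g + j - g) : ℤ) - r (g - (g + j)) = _
        rw [show g + j - g = j by omega, show g - (g + j) = 0 by omega, hr0]
        simp
      omega
    have hW := rd_finrank b hli (g - j) (by omega)
    have hV := rd_finrank b hli (g + j + 1) (by omega)
    refine isoB hm hu c hc0 (Submodule.span (RatFunc k) (b '' {i | (i : ℕ) < g - j}))
      (Submodule.span (RatFunc k) (b '' {i | (i : ℕ) < g + j + 1})) (by omega) (by omega)
      (by omega) (rd_vanish hm c b _ _ ?_) (rd_vanish hm _ b _ _ ?_)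
    · intro i hi i' hi'
      have h1 := hb i hi
      have h3 := hb' i' hi'
      exact ht1 i i' (hz1 i i' (by omega))
    · intro i hi i' hi'
      have h1 := hb i hi
      have h3 := hb' i' hi'
      exact ht2 i i' (hz2 i i' (by omega))
  · exact rd_symm hG.g1 (gram1_symm hm c b)
  · exact rd_symm hG.g2 (gram2_symm hm c b)
  · intro i j hij
    rw [← hν, ← hν]
    exact ((DegLE.cc_iff _ _).1 (hd1 i j)).resolve_left hij
  · intro i j hij
    rw [← hν, ← hν]
    exact ((DegLE.cc_iff _ _).1 (hd2 i j)).resolve_left hij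
  · obtain ⟨v, hv, hv'⟩ := Polynomial.isUnit_iff.1 hG.unit
    have hsq : ((coord hm b).det * a) ^ 2 = cc (C ((-1) ^ g * v)) := by
      have h1 := gram1_det hm hfd c b
      rw [hgd, hN] at h1
      have h3 : (cc (C ((-1) ^ g * v)) : RatFunc k) = (-1) ^ g * cc G1.det := by
        rw [← hv', map_mul C, map_pow, map_neg, map_one]
        simp only [cc, map_mul, map_pow, map_neg, map_one]
      rw [h3, h1]
      have h4 : ((-1 : RatFunc k) ^ g) * (-1) ^ g = 1 := by
        rw [← mul_pow, neg_one_mul, neg_neg, one_pow]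
      calc ((coord hm b).det * a) ^ 2 = (((-1 : RatFunc k) ^ g) * (-1) ^ g) *
            ((coord hm b).det * a) ^ 2 := by rw [h4, one_mul]
        _ = _ := by ring
    obtain ⟨u, hu'⟩ := const_sq hsq
    refine ⟨u, ?_, ?_⟩
    · rintro rfl
      rw [zero_pow two_ne_zero] at hu'
      exact mul_ne_zero (pow_ne_zero _ (neg_ne_zero.2 one_ne_zero)) hv.ne_zero hu'
    · rw [← hu', ← hv', map_mul C, map_pow, map_neg, map_one]

end Pool.Agent.HYP
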